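import Pool.Agent.L0h27.FS2.Main
import Pool.Agent.TH511.HLC.Part

/-!
# Bending parallel families into convex arcs
-/

namespace Pool.Agent.L0h27.FS2

open Finset Filter Topology KLev

/-- the determinant of three points -/
def det3 (u v : ℝ × ℝ × ℝ) : ℝ :=
  v.1 * (u.2.1 - u.2.2) + v.2.1 * (u.2.2 - u.1) + v.2.2 * (u.1 - u.2.1)

lemma det3_ne {ι : Type} {s t : ι → ℝ} (h : Simple s t) {i j l : ι} (hij : i ≠ j) (hil : i ≠ l)
    (hjl : j ≠ l) (hs : ¬ (s i = s j ∧ s j = s l)) :
    det3 (s i, s j, s l) (t i, t j, t l) ≠ 0 := by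
  intro h0
  unfold det3 at h0
  simp only at h0
  by_cases hsij : s i = s j
  · have h1 : s i - s l ≠ 0 := by
      intro h2
      apply hs
      refine ⟨hsij, ?_⟩
      linarith
    have h2 : t i - t j ≠ 0 := sub_ne_zero.mpr (h.2 i j hij hsij)
    apply mul_ne_zero h2 h1
    rw [← hsij] at h0
    linarith
  · have h1 : s i - s j ≠ 0 := sub_ne_zero.mpr hsij
    set x := (t j - t i) / (s i - s j) with hx
    have hx' : (s i - s j) * x = t j - t i := by rw [hx]; field_simp
    apply h.1 i j l hij hil hjl x
    · linarith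
    · have h2 : (s i - s j) * (s j * x + t j - (s l * x + t l)) = 0 := by
        have e : (s i - s j) * (s j * x + t j - (s l * x + t l)) =
            (s j - s l) * ((s i - s j) * x) + (t j - t l) * (s i - s j) := by ring
        rw [e, hx']
        linarith
      have h3 := (mul_eq_zero.mp h2).resolve_left h1
      linarith

lemma det3_line {a b c : ℝ} (hab : a ≠ 0 ∨ b ≠ 0) {u1 v1 u2 v2 u3 v3 : ℝ}
    (h1 : a * u1 + b * v1 = c) (h2 : a * u2 + b * v2 = c) (h3 : a * u3 + b * v3 = c) :
    det3 (u1, u2, u3) (v1, v2, v3) = 0 := by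
  unfold det3
  simp only
  have e1 : b * (v1 * (u2 - u3) + v2 * (u3 - u1) + v3 * (u1 - u2)) = 0 := by
    linear_combination (u2 - u3) * h1 + (u3 - u1) * h2 + (u1 - u2) * h3
  have e2 : a * (v1 * (u2 - u3) + v2 * (u3 - u1) + v3 * (u1 - u2)) = 0 := by
    linear_combination (v3 - v2) * h1 + (v1 - v3) * h2 + (v2 - v1) * h3
  rcases hab with h | h
  · exact (mul_eq_zero.mp e2).resolve_left h
  · exact (mul_eq_zero.mp e1).resolve_left h

/-- a point that is strictly extreme in some direction is not in the hull of the others -/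
lemma not_mem_hull {a b : ℝ} {p : ℝ × ℝ} {T : Set (ℝ × ℝ)}
    (h : ∀ q ∈ T, a * p.1 + b * p.2 < a * q.1 + b * q.2) : p ∉ convexHull ℝ T := by
  intro hcon
  have hc : Convex ℝ {q : ℝ × ℝ | a * p.1 + b * p.2 < a * q.1 + b * q.2} := by
    rintro u hu v hv s t hs ht hst
    simp only [Set.mem_ofPred_eq] at hu hv ⊢
    have e : a * (s • u + t • v).1 + b * (s • u + t • v).2 =
        s * (a * u.1 + b * u.2) + t * (a * v.1 + b * v.2) := by
      simp only [Prod.fst_add, Prod.smul_fst, Prod.snd_add, Prod.smul_snd, smul_eq_mul]; ring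
    rw [e]
    have e2 : a * p.1 + b * p.2 = s * (a * p.1 + b * p.2) + t * (a * p.1 + b * p.2) := by
      rw [← add_mul, hst, one_mul]
    rw [e2]
    rcases hs.eq_or_lt with h0 | h0
    · rw [← h0] at hst ⊢
      have : t = 1 := by linarith
      rw [this]; linarith
    · have := mul_lt_mul_of_pos_left hu h0
      have := mul_le_mul_of_nonneg_left hv.le ht
      linarith
  have h9 : a * p.1 + b * p.2 < a * p.1 + b * p.2 := convexHull_min h hc hcon
  exact lt_irrefl _ h9

open scoped Classical in
/-- a general bisector statement: families without three lines through a point, `2 (k + 1)` lines,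
crossings with `k` lines below -/
theorem bisectors_ge {ι R : Type} [Fintype ι] [Fintype R] (s t : ι → ℝ) {k : ℕ}
    (hinj : Function.Injective (fun i => ((s i, t i) : ℝ × ℝ)))
    (hcard : Fintype.card ι = 2 * (k + 1)) (X : R → ℝ) (hX : Function.Injective X) (a b : R → ι)
    (tie : ∀ r, s (a r) * X r + t (a r) = s (b r) * X r + t (b r))
    (hs : ∀ r, s (b r) < s (a r))
    (hne : ∀ r c, c ≠ a r → c ≠ b r → s c * X r + t c ≠ s (a r) * X r + t (a r))
    (hcnt : ∀ r, ((Finset.univ : Finset ι).filter (fun c => s c * X r + t c <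
      s (a r) * X r + t (a r))).card = k) :
    Fintype.card R ≤ {L | Pool.Agent.W296.HL.IsBisector
      (Finset.univ.image (fun i => ((s i, t i) : ℝ × ℝ))) L}.ncard := by
  set g : ι → ℝ × ℝ := fun i => (s i, t i) with hg
  have hab : ∀ r, a r ≠ b r := by
    intro r h
    have := hs r
    rw [h] at this
    exact lt_irrefl _ this
  set Pt : Finset (ℝ × ℝ) := Finset.univ.image g with hPt
  have hPc : Pt.card = 2 * (k + 1) := by
    rw [hPt, Finset.card_image_of_injective _ hinj, Finset.card_univ, hcard]
  have hcnt2 : ∀ r, ((Finset.univ : Finset ι).filter (fun i => s (a r) * X r + t (a r) <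
      s i * X r + t i)).card = k := by
    intro r
    have h1 := Finset.card_filter_add_card_filter_not (s := (Finset.univ : Finset ι))
      (p := fun i => s i * X r + t i < s (a r) * X r + t (a r))
    have h2 : (Finset.univ : Finset ι).filter (fun i => ¬ (s i * X r + t i <
      s (a r) * X r + t (a r))) = insert (a r) (insert (b r)
        ((Finset.univ : Finset ι).filter (fun i => s (a r) * X r + t (a r) <
      s i * X r + t i))) := by
      ext i
      simp only [Finset.mem_filter, Finset.mem_univ, true_and, Finset.mem_insert]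
      constructor
      · intro h
        by_cases hia : i = a r
        · exact Or.inl hia
        · by_cases hib : i = b r
          · exact Or.inr (Or.inl hib)
          · right; right
            exact lt_of_le_of_ne (not_lt.mp h) (Ne.symm (hne r i hia hib))
      · rintro (rfl | rfl | h)
        · exact lt_irrefl _
        · rw [tie r]; exact lt_irrefl _
        · exact not_lt.mpr h.le
    rw [h2, hcnt r, Finset.card_insert_of_notMem, Finset.card_insert_of_notMem, Finset.card_univ,
      hcard] at h1
    · omega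
    · simp only [Finset.mem_filter, Finset.mem_univ, true_and]
      rw [tie r]; exact lt_irrefl _
    · simp only [Finset.mem_insert, Finset.mem_filter, Finset.mem_univ, true_and]
      rintro (h | h)
      · exact hab r h
      · exact lt_irrefl _ h
  have hbis : ∀ r, Pool.Agent.W296.HL.IsBisector Pt
      (Pool.Agent.W296.HL.Line (X r) 1 (s (a r) * X r + t (a r))) := by
    intro r
    refine ⟨X r, 1, _, Or.inr one_ne_zero, rfl, ⟨g (a r), ?_, g (b r), ?_, ?_, ?_, ?_⟩, ?_, ?_⟩
    · simp [hPt]
    · simp [hPt]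
    · intro h; exact hab r (hinj h)
    · show X r * s (a r) + 1 * t (a r) = _
      ring
    · show X r * s (b r) + 1 * t (b r) = _
      rw [tie r]; ring
    · rw [hPc, hPt, Finset.filter_image, Finset.card_image_of_injective _ hinj]
      have : (Finset.univ : Finset ι).filter (fun i => X r * (g i).1 + 1 * (g i).2 <
          s (a r) * X r + t (a r)) = (Finset.univ : Finset ι).filter
          (fun i => s i * X r + t i < s (a r) * X r + t (a r)) := by
        ext i
        simp only [hg, Finset.mem_filter, Finset.mem_univ, true_and]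
        rw [one_mul, mul_comm (X r) (s i)]
      rw [this, hcnt r]; omega
    · rw [hPc, hPt, Finset.filter_image, Finset.card_image_of_injective _ hinj]
      have : (Finset.univ : Finset ι).filter (fun i => s (a r) * X r + t (a r) <
          X r * (g i).1 + 1 * (g i).2) = (Finset.univ : Finset ι).filter
          (fun i => s (a r) * X r + t (a r) < s i * X r + t i) := by
        ext i
        simp only [hg, Finset.mem_filter, Finset.mem_univ, true_and]
        rw [one_mul, mul_comm (X r) (s i)]
      rw [this, hcnt2 r]; omega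
  set G : R → Set (ℝ × ℝ) := fun r => Pool.Agent.W296.HL.Line (X r) 1 (s (a r) * X r + t (a r))
    with hG
  have hGinj : Function.Injective G := by
    intro r r' h
    apply hX
    have h1 : ((0:ℝ), s (a r) * X r + t (a r)) ∈ G r := by
      show X r * 0 + 1 * (s (a r) * X r + t (a r)) = _
      ring
    have h2 : ((1:ℝ), s (a r) * X r + t (a r) - X r) ∈ G r := by
      show X r * 1 + 1 * (s (a r) * X r + t (a r) - X r) = _
      ring
    rw [h] at h1 h2
    have h1' : X r' * 0 + 1 * (s (a r) * X r + t (a r)) = s (a r') * X r' + t (a r') := h1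
    have h2' : X r' * 1 + 1 * (s (a r) * X r + t (a r) - X r) = s (a r') * X r' + t (a r') := h2
    linarith
  calc Fintype.card R = (Set.range G).ncard := by
        rw [← Set.image_univ, Set.ncard_image_of_injective _ hGinj, Set.ncard_univ,
          Nat.card_eq_fintype_card]
    _ ≤ {L | Pool.Agent.W296.HL.IsBisector Pt L}.ncard := by
        apply Set.ncard_le_ncard _ (Pool.Agent.W296.HL.bis_finite Pt)
        rintro _ ⟨r, rfl⟩
        exact hbis r

/-- the number of elements of `T` below `x` -/
noncomputable def loN (T : Finset ℝ) (x : ℝ) : ℕ := #{u ∈ T | u < x}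

/-- the number of elements of `T` above `x` -/
noncomputable def hiN (T : Finset ℝ) (x : ℝ) : ℕ := #{u ∈ T | x < u}

lemma lo_mono {T : Finset ℝ} {x y : ℝ} (hx : x ∈ T) (h : x < y) : loN T x < loN T y := by
  unfold loN
  apply Finset.card_lt_card
  rw [Finset.ssubset_iff_of_subset]
  · exact ⟨x, by simp [hx, h], by simp⟩
  · intro u hu
    rw [Finset.mem_filter] at hu ⊢
    exact ⟨hu.1, hu.2.trans h⟩

lemma hi_anti {T : Finset ℝ} {x y : ℝ} (hy : y ∈ T) (h : x < y) : hiN T y < hiN T x := by
  unfold hiN
  apply Finset.card_lt_card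
  rw [Finset.ssubset_iff_of_subset]
  · exact ⟨y, by simp [hy, h], by simp⟩
  · intro u hu
    rw [Finset.mem_filter] at hu ⊢
    exact ⟨hu.1, h.trans hu.2⟩

lemma lo_add_hi {T : Finset ℝ} {x : ℝ} (hx : x ∈ T) : loN T x + hiN T x + 1 ≤ #T := by
  unfold loN hiN
  have h1 : ({u ∈ T | u < x} : Finset ℝ) ∪ {u ∈ T | x < u} ⊆ T.erase x := by
    intro u hu
    rw [Finset.mem_union, Finset.mem_filter, Finset.mem_filter] at hu
    rw [Finset.mem_erase]
    rcases hu with hu | hu
    · exact ⟨hu.2.ne, hu.1⟩
    · exact ⟨hu.2.ne', hu.1⟩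
  have h2 := Finset.card_le_card h1
  rw [Finset.card_union_of_disjoint, Finset.card_erase_of_mem hx] at h2
  · have : 0 < #T := Finset.card_pos.mpr ⟨x, hx⟩
    omega
  · rw [Finset.disjoint_left]
    intro u hu hu'
    rw [Finset.mem_filter] at hu hu'
    linarith [hu.2, hu'.2]

/-- A certificate with `2 (k + 1)` lines of at most `2 c` slopes whose counts are `k + 1` gives a
set of points in general position with at most `c` convex layers and many bisectors. -/
theorem VC.bend {ι Q : Type} [Fintype ι] [Fintype Q] {k : ℕ} (C : VC ι Q (fun _ => k + 1))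
    (hcard : Fintype.card ι = 2 * (k + 1)) (T : Finset ℝ) (hT : ∀ i, C.s i ∈ T) (c : ℕ)
    (hTc : #T ≤ 2 * c) :
    ∃ P : Finset (ℝ × ℝ), Pool.Agent.W296.HL.GeneralPosition P ∧ #P = 2 * (k + 1) ∧
      Pool.Agent.W296.HL.layers P ≤ c ∧
      (∃ A : Fin c → Finset (ℝ × ℝ), (∀ i, Pool.Agent.TH511.HLC.ConvexPosition (A i)) ∧
        ∀ p ∈ P, ∃ i, p ∈ A i) ∧
      Fintype.card Q ≤ {L | Pool.Agent.W296.HL.IsBisector P L}.ncard := by
  classical
  set cf : ι → ℝ := fun i => if loN T (C.s i) ≤ hiN T (C.s i) then 1 else -1 with hcf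
  have hcfs : ∀ i j, C.s i = C.s j → cf i = cf j := by
    intro i j h
    simp only [hcf, h]
  have hcf0 : ∀ i, cf i ≠ 0 := by
    intro i
    simp only [hcf]
    split_ifs <;> norm_num
  -- first perturbation
  have hsgn : ∀ᶠ z in 𝓝[>] (0:ℝ), ∀ r b i,
      (C.s i * C.x r b + C.t i - C.y r b + z * z ^ ((Fintype.equivFin ι i : ℕ)) ≠ 0 ∧
      (C.s i * C.x r b + C.t i - C.y r b + z * z ^ ((Fintype.equivFin ι i : ℕ)) < 0 ↔
        C.s i * C.x r b + C.t i - C.y r b < 0)) := by
    rw [eventually_all]; intro r
    rw [eventually_all]; intro b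
    rw [eventually_all]; intro i
    have hA : C.s i * C.x r b + C.t i - C.y r b ≠ 0 := sub_ne_zero.mpr (C.hne r b i)
    set A := C.s i * C.x r b + C.t i - C.y r b with hAdef
    have hc : Tendsto (fun z : ℝ => A + z * z ^ ((Fintype.equivFin ι i : ℕ))) (𝓝[>] (0:ℝ))
        (𝓝 A) := by
      have h : ContinuousAt (fun z : ℝ => A + z * z ^ ((Fintype.equivFin ι i : ℕ))) 0 := by
        fun_prop
      have h2 := h.tendsto
      simp only [zero_mul, add_zero] at h2
      exact h2.mono_left nhdsWithin_le_nhds
    rcases lt_or_gt_of_ne hA with h | h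
    · filter_upwards [hc.eventually (gt_mem_nhds h)] with ε hε
      exact ⟨hε.ne, by simp [hε, h]⟩
    · filter_upwards [hc.eventually (lt_mem_nhds h)] with ε hε
      exact ⟨hε.ne', by constructor <;> intro h' <;> linarith⟩
  obtain ⟨z, hz1, hz2⟩ := (hsgn.and (ev_simple C.s C.t)).exists
  set t : ι → ℝ := fun i => C.t i + z ^ ((Fintype.equivFin ι i : ℕ) + 1) with ht
  have hA1 : ∀ r b i, (C.s i * C.x r b + t i - C.y r b ≠ 0 ∧
      (C.s i * C.x r b + t i - C.y r b < 0 ↔ C.s i * C.x r b + C.t i < C.y r b)) := by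
    intro r b i
    have h := hz1 r b i
    have e : C.s i * C.x r b + t i - C.y r b =
      C.s i * C.x r b + C.t i - C.y r b + z * z ^ ((Fintype.equivFin ι i : ℕ)) := by
      simp only [ht, pow_succ]; ring
    rw [e]
    exact ⟨h.1, h.2.trans sub_neg⟩
  -- second perturbation
  obtain ⟨ε, hε0, hε1, hε2, hε3, hε4, hε5⟩ : ∃ ε : ℝ, 0 < ε ∧
      (∀ r b i, (C.s i * C.x r b + t i - C.y r b) + ε * (cf i * t i ^ 2 * C.x r b) ≠ 0 ∧
        ((C.s i * C.x r b + t i - C.y r b) + ε * (cf i * t i ^ 2 * C.x r b) < 0 ↔
          C.s i * C.x r b + t i - C.y r b < 0)) ∧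
      (∀ i j l, det3 (C.s i, C.s j, C.s l) (t i, t j, t l) ≠ 0 →
        det3 (C.s i, C.s j, C.s l) (t i, t j, t l) +
          ε * det3 (cf i * t i ^ 2, cf j * t j ^ 2, cf l * t l ^ 2) (t i, t j, t l) ≠ 0) ∧
      (∀ i j, C.s i < C.s j → 0 < (C.s j - C.s i) + ε * (cf j * t j ^ 2 - cf i * t i ^ 2)) ∧
      (∀ i j, C.s i < C.s j → 0 < (C.s j - C.s i) +
        ε * (cf j * t j ^ 2 - 2 * t i * t j + t i ^ 2)) ∧
      (∀ i j, C.s j < C.s i → 0 < (C.s i - C.s j) +
        ε * (t i ^ 2 - cf j * t j ^ 2 - 2 * t i * t j)) := by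
    refine Filter.Eventually.exists (f := 𝓝[>] (0:ℝ)) ?_
    refine Filter.Eventually.and self_mem_nhdsWithin (Filter.Eventually.and ?_
      (Filter.Eventually.and ?_ (Filter.Eventually.and ?_ (Filter.Eventually.and ?_ ?_))))
    · rw [eventually_all]; intro r
      rw [eventually_all]; intro b
      rw [eventually_all]; intro i
      exact ev_sign _ (hA1 r b i).1
    · rw [eventually_all]; intro i
      rw [eventually_all]; intro j
      rw [eventually_all]; intro l
      by_cases h : det3 (C.s i, C.s j, C.s l) (t i, t j, t l) = 0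
      · exact Filter.Eventually.of_forall (fun _ h' => absurd h h')
      · filter_upwards [ev_sign (det3 (cf i * t i ^ 2, cf j * t j ^ 2, cf l * t l ^ 2)
          (t i, t j, t l)) h] with ε hε _
        exact hε.1
    · rw [eventually_all]; intro i
      rw [eventually_all]; intro j
      by_cases h : C.s i < C.s j
      · filter_upwards [ev_pos (cf j * t j ^ 2 - cf i * t i ^ 2) (sub_pos.mpr h)] with ε hε _
        exact hε
      · exact Filter.Eventually.of_forall (fun _ h' => absurd h' h)
    · rw [eventually_all]; intro i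
      rw [eventually_all]; intro j
      by_cases h : C.s i < C.s j
      · filter_upwards [ev_pos (cf j * t j ^ 2 - 2 * t i * t j + t i ^ 2) (sub_pos.mpr h)]
          with ε hε _
        exact hε
      · exact Filter.Eventually.of_forall (fun _ h' => absurd h' h)
    · rw [eventually_all]; intro i
      rw [eventually_all]; intro j
      by_cases h : C.s j < C.s i
      · filter_upwards [ev_pos (t i ^ 2 - cf j * t j ^ 2 - 2 * t i * t j) (sub_pos.mpr h)]
          with ε hε _
        exact hε
      · exact Filter.Eventually.of_forall (fun _ h' => absurd h' h)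
  have hε0' : (0:ℝ) < ε := hε0
  set s : ι → ℝ := fun i => C.s i + ε * (cf i * t i ^ 2) with hs
  -- no three points on a line
  have hdet : ∀ i j l, i ≠ j → i ≠ l → j ≠ l → det3 (s i, s j, s l) (t i, t j, t l) ≠ 0 := by
    intro i j l hij hil hjl
    have e : det3 (s i, s j, s l) (t i, t j, t l) =
        det3 (C.s i, C.s j, C.s l) (t i, t j, t l) +
          ε * det3 (cf i * t i ^ 2, cf j * t j ^ 2, cf l * t l ^ 2) (t i, t j, t l) := by
      unfold det3
      simp only [hs]
      ring
    by_cases hsl : C.s i = C.s j ∧ C.s j = C.s l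
    · obtain ⟨h1, h2⟩ := hsl
      have c1 := hcfs i j h1
      have c2 := hcfs j l h2
      have d1 : t i - t j ≠ 0 := sub_ne_zero.mpr (hz2.2 i j hij h1)
      have d2 : t j - t l ≠ 0 := sub_ne_zero.mpr (hz2.2 j l hjl h2)
      have d3 : t l - t i ≠ 0 := sub_ne_zero.mpr (hz2.2 l i hil.symm (by rw [h1, h2]))
      have e2 : det3 (s i, s j, s l) (t i, t j, t l) =
          ε * cf i * ((t i - t j) * (t j - t l) * (t l - t i)) := by
        unfold det3
        simp only [hs]
        rw [← c2, ← c1, ← h2, ← h1]
        ring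
      rw [e2]
      exact mul_ne_zero (mul_ne_zero hε0'.ne' (hcf0 i)) (mul_ne_zero (mul_ne_zero d1 d2) d3)
    · rw [e]
      exact hε2 i j l (det3_ne hz2 hij hil hjl hsl)
  have hpair : ∀ i j, i ≠ j → s i = s j → t i ≠ t j := by
    intro i j hij h1 h2
    rcases lt_trichotomy (C.s i) (C.s j) with h | h | h
    · have := hε3 i j h
      simp only [hs] at h1
      linarith
    · exact hz2.2 i j hij h h2
    · have := hε3 j i h
      simp only [hs] at h1
      linarith
  have hsim : Simple s t := by
    refine ⟨?_, hpair⟩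
    intro i j l hij hil hjl x h1 h2
    apply hdet i j l hij hil hjl
    have g : ∀ u v : ℝ, x * u + 1 * v = u * x + v := by intro u v; ring
    refine det3_line (a := x) (b := 1) (c := s i * x + t i) (Or.inr one_ne_zero) (g _ _) ?_ ?_
    · rw [g]; exact h1.symm
    · rw [g, ← h2]; exact h1.symm
  -- the samples
  have hA2 : ∀ r b i, (s i * C.x r b + t i - C.y r b ≠ 0 ∧
      (s i * C.x r b + t i - C.y r b < 0 ↔ C.s i * C.x r b + C.t i < C.y r b)) := by
    intro r b i
    have h := hε1 r b i
    have e : s i * C.x r b + t i - C.y r b =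
      (C.s i * C.x r b + t i - C.y r b) + ε * (cf i * t i ^ 2 * C.x r b) := by
      simp only [hs]; ring
    rw [e]
    exact ⟨h.1, h.2.trans (hA1 r b i).2⟩
  have hpos : ∀ r b i, (s i * C.x r b + t i < C.y r b ↔ C.s i * C.x r b + C.t i < C.y r b) :=
    fun r b i => sub_neg.symm.trans (hA2 r b i).2
  have hcnt : ∀ r b, ∑ i, (if s i * C.x r b + t i < C.y r b then 1 else 0) = k + 1 := by
    intro r b
    refine Eq.trans ?_ (C.hcard r b)
    apply Finset.sum_congr rfl
    intro i _
    simp only [hpos]
  have hex : ∀ r, ∃ Xb : ℝ × ι, C.x r false < Xb.1 ∧ Xb.1 < C.x r true ∧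
      s (C.l r) * Xb.1 + t (C.l r) = s Xb.2 * Xb.1 + t Xb.2 ∧ s Xb.2 < s (C.l r) ∧
      (∀ c, c ≠ C.l r → c ≠ Xb.2 → s c * Xb.1 + t c ≠ s (C.l r) * Xb.1 + t (C.l r)) ∧
      ∑ c, (if s c * Xb.1 + t c < s (C.l r) * Xb.1 + t (C.l r) then 1 else 0) = k := by
    intro r
    have h0 : s (C.l r) * C.x r false + t (C.l r) < C.y r false :=
      (hpos r false (C.l r)).mpr (C.hl0 r)
    have h1 : C.y r true < s (C.l r) * C.x r true + t (C.l r) := by
      rcases lt_trichotomy (s (C.l r) * C.x r true + t (C.l r)) (C.y r true) with h | h | h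
      · exact absurd ((hpos r true (C.l r)).mp h) (not_lt.mpr (C.hl1 r).le)
      · exact absurd (sub_eq_zero.mpr h) (hA2 r true (C.l r)).1
      · exact h
    obtain ⟨X, b, h⟩ := extract s t hsim (C.hlt r) (C.l r)
      (by convert hcnt r false) (by convert hcnt r true) h0 h1
    refine ⟨(X, b), h.1, h.2.1, h.2.2.1, h.2.2.2.1, h.2.2.2.2.1, ?_⟩
    convert h.2.2.2.2.2
  choose Xb hXb using hex
  set g : ι → ℝ × ℝ := fun i => (s i, t i) with hg
  have hginj : Function.Injective g := by
    intro i j hij
    by_contra hne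
    simp only [hg, Prod.mk.injEq] at hij
    exact hpair i j hne hij.1 hij.2
  set P : Finset (ℝ × ℝ) := Finset.univ.image g with hP
  -- ranks
  set rk : ι → ℕ := fun i => min (loN T (C.s i)) (hiN T (C.s i)) with hrk
  have hrkc : ∀ i, rk i < c := by
    intro i
    have := lo_add_hi (hT i)
    simp only [hrk]
    omega
  have hull : ∀ (j : ℕ) (S : Set (ℝ × ℝ)) (i : ι), rk i = j →
      (∀ q ∈ S, ∃ i', j ≤ rk i' ∧ g i' = q) → g i ∉ S → g i ∉ convexHull ℝ S := by
    intro j S i hi hS hiS
    by_cases hc1 : loN T (C.s i) ≤ hiN T (C.s i)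
    · have e1 : cf i = 1 := by simp only [hcf, hc1, if_true]
      have e2 : loN T (C.s i) = j := by rw [← hi]; simp only [hrk]; omega
      apply not_mem_hull (a := 1) (b := - (2 * ε * t i))
      intro q hq
      obtain ⟨i', hi', rfl⟩ := hS q hq
      have hne : i' ≠ i := by rintro rfl; exact hiS hq
      have h3 : j ≤ loN T (C.s i') := hi'.trans (min_le_left _ _)
      simp only [hg]
      rcases lt_trichotomy (C.s i) (C.s i') with h | h | h
      · have := hε4 i i' h
        simp only [hs]
        rw [e1]
        nlinarith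
      · have d1 : t i' - t i ≠ 0 := sub_ne_zero.mpr (hz2.2 i' i hne h.symm)
        have d2 : 0 < ε * (t i' - t i) ^ 2 := by positivity
        simp only [hs]
        rw [← hcfs i i' h, e1, ← h]
        nlinarith
      · exfalso
        have := lo_mono (hT i') h
        omega
    · have e1 : cf i = -1 := by simp only [hcf, hc1, if_false]
      have e2 : hiN T (C.s i) = j := by rw [← hi]; simp only [hrk]; omega
      apply not_mem_hull (a := -1) (b := - (2 * ε * t i))
      intro q hq
      obtain ⟨i', hi', rfl⟩ := hS q hq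
      have hne : i' ≠ i := by rintro rfl; exact hiS hq
      have h3 : j ≤ hiN T (C.s i') := hi'.trans (min_le_right _ _)
      simp only [hg]
      rcases lt_trichotomy (C.s i) (C.s i') with h | h | h
      · exfalso
        have := hi_anti (hT i') h
        omega
      · have d1 : t i' - t i ≠ 0 := sub_ne_zero.mpr (hz2.2 i' i hne h.symm)
        have d2 : 0 < ε * (t i' - t i) ^ 2 := by positivity
        simp only [hs]
        rw [← hcfs i i' h, e1, ← h]
        nlinarith
      · have := hε5 i i' h
        simp only [hs]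
        rw [e1]
        nlinarith
  refine ⟨P, ?_, ?_, ?_, ?_, ?_⟩
  · intro a b d hab p hp q hq r hr hpq hpr hqr h
    simp only [hP, Finset.mem_image, Finset.mem_univ, true_and] at hp hq hr
    obtain ⟨i, rfl⟩ := hp
    obtain ⟨j, rfl⟩ := hq
    obtain ⟨l, rfl⟩ := hr
    have hij : i ≠ j := fun h => hpq (by rw [h])
    have hil : i ≠ l := fun h => hpr (by rw [h])
    have hjl : j ≠ l := fun h => hqr (by rw [h])
    exact hdet i j l hij hil hjl (det3_line hab h.1 h.2.1 h.2.2)
  · rw [hP, Finset.card_image_of_injective _ hginj, Finset.card_univ, hcard]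
  · have hind : ∀ j, ∀ p ∈ (Pool.Agent.W296.HL.peel)^[j] P, ∃ i, j ≤ rk i ∧ g i = p := by
      intro j
      induction j with
      | zero =>
        intro p hp
        simp only [Function.iterate_zero, id_eq, hP, Finset.mem_image, Finset.mem_univ,
          true_and] at hp
        obtain ⟨i, rfl⟩ := hp
        exact ⟨i, Nat.zero_le _, rfl⟩
      | succ j ih =>
        intro p hp
        rw [Function.iterate_succ_apply'] at hp
        unfold Pool.Agent.W296.HL.peel at hp
        rw [Finset.mem_filter] at hp
        obtain ⟨hp1, hp2⟩ := hp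
        obtain ⟨i, hi, rfl⟩ := ih p hp1
        refine ⟨i, ?_, rfl⟩
        rcases Nat.lt_or_eq_of_le hi with h | h
        · exact h
        · exfalso
          refine hull j _ i h.symm ?_ ?_ hp2
          · rintro q ⟨hq1, -⟩
            exact ih q hq1
          · rintro ⟨-, h⟩
            exact h rfl
    unfold Pool.Agent.W296.HL.layers
    apply Nat.sInf_le
    show (Pool.Agent.W296.HL.peel)^[c] P = ∅
    rw [Finset.eq_empty_iff_forall_notMem]
    intro p hp
    obtain ⟨i, hi, -⟩ := hind c p hp
    have := hrkc i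
    omega
  · refine ⟨fun j => (Finset.univ.filter (fun i => rk i = j.val)).image g, ?_, ?_⟩
    · intro j p hp
      rw [Finset.mem_image] at hp
      obtain ⟨i, hi, rfl⟩ := hp
      rw [Finset.mem_filter] at hi
      refine hull j.val _ i hi.2 ?_ ?_
      · rintro q ⟨hq1, -⟩
        rw [Finset.mem_coe, Finset.mem_image] at hq1
        obtain ⟨i', hi', rfl⟩ := hq1
        rw [Finset.mem_filter] at hi'
        exact ⟨i', hi'.2.ge, rfl⟩
      · rintro ⟨-, h⟩
        exact h rfl
    · intro p hp
      rw [hP, Finset.mem_image] at hp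
      obtain ⟨i, -, rfl⟩ := hp
      refine ⟨⟨rk i, hrkc i⟩, ?_⟩
      rw [Finset.mem_image]
      exact ⟨i, by simp, rfl⟩
  · have hX : Function.Injective (fun r => (Xb r).1) := by
      intro r r' h
      by_contra hne
      simp only at h
      rcases C.hdisj r r' hne rfl with h1 | h1
      · have := (hXb r).2.1
        have := (hXb r').1
        linarith
      · have := (hXb r').2.1
        have := (hXb r).1
        linarith
    exact bisectors_ge s t hginj hcard (fun r => (Xb r).1) hX C.l (fun r => (Xb r).2)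
      (fun r => (hXb r).2.2.1) (fun r => (hXb r).2.2.2.1) (fun r => (hXb r).2.2.2.2.1)
      (fun r => by rw [Finset.card_filter]; convert (hXb r).2.2.2.2.2)

end Pool.Agent.L0h27.FS2
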