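import Pool.Agent.KLev.Levels
import Pool.Agent.KLev.Regular

/-!
# Certificates in which the number of lines below the samples may vary

`VC ι Q κ` is a family of lines `y = s i * x + t i` together with, for each `q : Q`, two sample
points with exactly `κ q` lines strictly below and a line which is below the left one and above
the right one.
-/

namespace Pool.Agent.L0h27.FS2

open KLev KLev.Levels Finset Filter Topology

open scoped Classical in
/-- lines and sample points -/
structure VC (ι Q : Type) [Fintype ι] (κ : Q → ℕ) where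
  s : ι → ℝ
  t : ι → ℝ
  x : Q → Bool → ℝ
  y : Q → Bool → ℝ
  l : Q → ι
  hlt : ∀ q, x q false < x q true
  hdisj : ∀ q q', q ≠ q' → κ q = κ q' → x q true < x q' false ∨ x q' true < x q false
  hne : ∀ q b i, s i * x q b + t i ≠ y q b
  hcard : ∀ q b, ∑ i, (if s i * x q b + t i < y q b then 1 else 0) = κ q
  hl0 : ∀ q, s (l q) * x q false + t (l q) < y q false
  hl1 : ∀ q, y q true < s (l q) * x q true + t (l q)

/-- no three lines of the family meet in a point -/
def NoThree (Γ : Finset (ℝ × ℝ)) : Prop :=
  ∀ l ∈ Γ, ∀ m ∈ Γ, ∀ j ∈ Γ, l ≠ m → l ≠ j → m ≠ j →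
    ∀ x : ℝ, ¬ (height l x = height m x ∧ height m x = height j x)

/-- A crossing with `k` lines below is a vertex of the `k`-level and of the `k + 1`-level. -/
theorem vertex_of_cross {ι : Type} [Fintype ι] (s t : ι → ℝ)
    (hginj : Function.Injective (fun i => ((s i, t i) : ℝ × ℝ)))
    (Γ : Finset (ℝ × ℝ)) (hΓ' : ∀ l, l ∈ Γ ↔ ∃ i, ((s i, t i) : ℝ × ℝ) = l)
    (a b : ι) (X : ℝ) (tie : s a * X + t a = s b * X + t b) (hs : s b < s a)
    (hne : ∀ c, c ≠ a → c ≠ b → s c * X + t c ≠ s a * X + t a) (k : ℕ)
    (hcard : (Finset.univ.filter (fun c => s c * X + t c < s a * X + t a)).card = k) :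
    IsVertex Γ k (X, s a * X + t a) ∧ IsVertex Γ (k + 1) (X, s a * X + t a) := by
  classical
  set g : ι → ℝ × ℝ := fun i => (s i, t i) with hg
  have hΓ : Γ = Finset.univ.image g := by
    ext l; rw [hΓ' l]; simp [hg]
  have hmem : ∀ i, g i ∈ Γ := fun i => by simp [hΓ]
  have hlev : ∀ p : ℝ × ℝ, level Γ p =
      ((Finset.univ : Finset ι).filter (fun i => s i * p.1 + t i < p.2)).card := by
    intro p
    unfold level
    rw [hΓ, Finset.filter_image, Finset.card_image_of_injective _ hginj]
    rfl
  have hcont : ∀ i, Continuous (fun x : ℝ => s i * x + t i) := by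
    intro i; fun_prop
  have hab : a ≠ b := by rintro rfl; exact lt_irrefl _ hs
  have hgab : g a ≠ g b := fun h => hab (hginj h)
  have hnear : ∀ᶠ x in 𝓝 X, ∀ c, c ≠ a → c ≠ b →
      (s c * x + t c < s a * x + t a ↔ s c * X + t c < s a * X + t a) ∧
      (s c * x + t c < s b * x + t b ↔ s c * X + t c < s a * X + t a) := by
    rw [eventually_all]; intro c
    by_cases hca : c = a
    · exact Filter.Eventually.of_forall (fun _ h => absurd hca h)
    by_cases hcb : c = b
    · exact Filter.Eventually.of_forall (fun _ _ h => absurd hcb h)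
    have hne' := hne c hca hcb
    rcases lt_or_gt_of_ne hne' with h | h
    · have h' : s c * X + t c < s b * X + t b := by
        rw [← tie]; exact h
      filter_upwards [(hcont c).continuousAt.eventually_lt (hcont a).continuousAt h,
        (hcont c).continuousAt.eventually_lt (hcont b).continuousAt h'] with x h1 h2 _ _
      exact ⟨⟨fun _ => h, fun _ => h1⟩, ⟨fun _ => h, fun _ => h2⟩⟩
    · have h' : s b * X + t b < s c * X + t c := by
        rw [← tie]; exact h
      filter_upwards [(hcont a).continuousAt.eventually_lt (hcont c).continuousAt h,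
        (hcont b).continuousAt.eventually_lt (hcont c).continuousAt h'] with x h1 h2 _ _
      exact ⟨⟨fun h3 => absurd h3 (not_lt.mpr h1.le), fun h3 => absurd h3 (not_lt.mpr h.le)⟩,
        ⟨fun h3 => absurd h3 (not_lt.mpr h2.le), fun h3 => absurd h3 (not_lt.mpr h.le)⟩⟩
  obtain ⟨δ, hδ, hball⟩ := Metric.eventually_nhds_iff.mp hnear
  constructor
  · refine ⟨g a, hmem _, g b, hmem _, hgab, rfl, tie.symm, δ, hδ, ?_, ?_⟩
    · intro x hx1 hx2
      have hx1' : X - δ < x := hx1
      have hx2' : x < X := hx2
      have hx : dist x X < δ := by rw [Real.dist_eq, abs_lt]; constructor <;> linarith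
      apply subset_closure
      refine ⟨⟨g a, hmem _, rfl⟩, ?_⟩
      rw [hlev]
      refine Eq.trans (congrArg Finset.card ?_) hcard
      ext c
      simp only [Finset.mem_filter, Finset.mem_univ, true_and]
      show s c * x + t c < s a * x + t a ↔ _
      by_cases hca : c = a
      · subst hca; simp
      by_cases hcb : c = b
      · rw [hcb]
        constructor
        · intro h; exfalso; nlinarith
        · intro h; exfalso; linarith
      · exact (hball hx c hca hcb).1
    · intro x hx1 hx2
      have hx1' : X < x := hx1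
      have hx2' : x < X + δ := hx2
      have hx : dist x X < δ := by rw [Real.dist_eq, abs_lt]; constructor <;> linarith
      apply subset_closure
      refine ⟨⟨g b, hmem _, rfl⟩, ?_⟩
      rw [hlev]
      refine Eq.trans (congrArg Finset.card ?_) hcard
      ext c
      simp only [Finset.mem_filter, Finset.mem_univ, true_and]
      show s c * x + t c < s b * x + t b ↔ _
      by_cases hca : c = a
      · rw [hca]
        constructor
        · intro h; exfalso; nlinarith
        · intro h; exfalso; linarith
      by_cases hcb : c = b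
      · rw [hcb]
        constructor
        · intro h; exfalso; linarith
        · intro h; exfalso; linarith
      · exact (hball hx c hca hcb).2
  · refine ⟨g b, hmem _, g a, hmem _, hgab.symm, tie.symm, rfl, δ, hδ, ?_, ?_⟩
    · intro x hx1 hx2
      have hx1' : X - δ < x := hx1
      have hx2' : x < X := hx2
      have hx : dist x X < δ := by rw [Real.dist_eq, abs_lt]; constructor <;> linarith
      apply subset_closure
      refine ⟨⟨g b, hmem _, rfl⟩, ?_⟩
      rw [hlev]
      rw [← hcard, ← Finset.card_insert_of_notMem (a := a) (by simp)]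
      refine congrArg Finset.card ?_
      ext c
      simp only [Finset.mem_insert, Finset.mem_filter, Finset.mem_univ, true_and]
      show s c * x + t c < s b * x + t b ↔ _
      by_cases hca : c = a
      · simp only [hca, true_or, iff_true]
        nlinarith
      by_cases hcb : c = b
      · rw [hcb]
        constructor
        · intro h; exfalso; linarith
        · rintro (h | h)
          · exact absurd h.symm hab
          · exfalso; linarith
      · rw [(hball hx c hca hcb).2]
        simp [hca]
    · intro x hx1 hx2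
      have hx1' : X < x := hx1
      have hx2' : x < X + δ := hx2
      have hx : dist x X < δ := by rw [Real.dist_eq, abs_lt]; constructor <;> linarith
      apply subset_closure
      refine ⟨⟨g a, hmem _, rfl⟩, ?_⟩
      rw [hlev]
      rw [← hcard, ← Finset.card_insert_of_notMem (a := b) (by
        simp only [Finset.mem_filter, Finset.mem_univ, true_and]; linarith)]
      refine congrArg Finset.card ?_
      ext c
      simp only [Finset.mem_insert, Finset.mem_filter, Finset.mem_univ, true_and]
      show s c * x + t c < s a * x + t a ↔ _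
      by_cases hcb : c = b
      · simp only [hcb, true_or, iff_true]
        nlinarith
      by_cases hca : c = a
      · rw [hca]
        constructor
        · intro h; exfalso; linarith
        · rintro (h | h)
          · exact absurd h hab
          · exfalso; linarith
      · rw [(hball hx c hca hcb).1]
        simp [hcb]

/-- a certificate with all counts in `{k, k + 1}` gives an arrangement with many vertices on the
`k`-level -/
theorem VC.final {ι Q : Type} [Fintype ι] [Fintype Q] {κ : Q → ℕ} (C : VC ι Q κ) (k : ℕ)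
    (hκ : ∀ q, κ q = k + 1 ∨ κ q = k) :
    ∃ Γ : Finset (ℝ × ℝ), Γ.card = Fintype.card ι ∧ (∀ l ∈ Γ, ∃ i, C.s i = l.1) ∧ NoThree Γ ∧
      Fintype.card Q ≤ complexity Γ k := by
  classical
  have hsgn : ∀ᶠ z in 𝓝[>] (0:ℝ), ∀ r b i,
      (C.s i * C.x r b + C.t i - C.y r b + z * z ^ ((Fintype.equivFin ι i : ℕ)) ≠ 0 ∧
      (C.s i * C.x r b + C.t i - C.y r b + z * z ^ ((Fintype.equivFin ι i : ℕ)) < 0 ↔
        C.s i * C.x r b + C.t i - C.y r b < 0)) := by
    rw [eventually_all]; intro r
    rw [eventually_all]; intro b
    rw [eventually_all]; intro i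
    have hA : C.s i * C.x r b + C.t i - C.y r b ≠ 0 := sub_ne_zero.mpr (C.hne r b i)
    set A := C.s i * C.x r b + C.t i - C.y r b with hAdef
    have hc : Tendsto (fun z : ℝ => A + z * z ^ ((Fintype.equivFin ι i : ℕ))) (𝓝[>] (0:ℝ))
        (𝓝 A) := by
      have h : ContinuousAt (fun z : ℝ => A + z * z ^ ((Fintype.equivFin ι i : ℕ))) 0 := by
        fun_prop
      have h2 := h.tendsto
      simp only [zero_mul, add_zero] at h2
      exact h2.mono_left nhdsWithin_le_nhds
    rcases lt_or_gt_of_ne hA with h | h
    · filter_upwards [hc.eventually (gt_mem_nhds h)] with ε hε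
      exact ⟨hε.ne, by simp [hε, h]⟩
    · filter_upwards [hc.eventually (lt_mem_nhds h)] with ε hε
      exact ⟨hε.ne', by constructor <;> intro h' <;> linarith⟩
  obtain ⟨z, hz1, hz2⟩ := (hsgn.and (ev_simple C.s C.t)).exists
  set t' : ι → ℝ := fun i => C.t i + z ^ ((Fintype.equivFin ι i : ℕ) + 1) with ht'
  have hpos : ∀ r b i, (C.s i * C.x r b + t' i < C.y r b ↔ C.s i * C.x r b + C.t i < C.y r b) := by
    intro r b i
    have h := (hz1 r b i).2
    have e : C.s i * C.x r b + t' i - C.y r b =
      C.s i * C.x r b + C.t i - C.y r b + z * z ^ ((Fintype.equivFin ι i : ℕ)) := by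
      simp only [ht', pow_succ]; ring
    rw [← sub_neg, e, h, sub_neg]
  have hne' : ∀ r b i, C.s i * C.x r b + t' i ≠ C.y r b := by
    intro r b i h
    apply (hz1 r b i).1
    have e : C.s i * C.x r b + t' i - C.y r b =
      C.s i * C.x r b + C.t i - C.y r b + z * z ^ ((Fintype.equivFin ι i : ℕ)) := by
      simp only [ht', pow_succ]; ring
    rw [← e, h, sub_self]
  have hκ1 : ∀ r, 1 ≤ κ r := by
    intro r
    rw [← C.hcard r false]
    have h1 : (if C.s (C.l r) * C.x r false + C.t (C.l r) < C.y r false then 1 else 0) ≤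
      ∑ i, (if C.s i * C.x r false + C.t i < C.y r false then 1 else 0) :=
      Finset.single_le_sum (f := fun i => if C.s i * C.x r false + C.t i < C.y r false then 1
        else 0) (fun _ _ => by positivity) (Finset.mem_univ (C.l r))
    rw [if_pos (C.hl0 r)] at h1
    exact h1
  have hcnt : ∀ r b, ∑ i, (if C.s i * C.x r b + t' i < C.y r b then 1 else 0) = κ r - 1 + 1 := by
    intro r b
    rw [Nat.sub_add_cancel (hκ1 r)]
    refine Eq.trans ?_ (C.hcard r b)
    apply Finset.sum_congr rfl
    intro i _
    simp only [hpos]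
  have hex : ∀ r, ∃ Xb : ℝ × ι, C.x r false < Xb.1 ∧ Xb.1 < C.x r true ∧
      C.s (C.l r) * Xb.1 + t' (C.l r) = C.s Xb.2 * Xb.1 + t' Xb.2 ∧ C.s Xb.2 < C.s (C.l r) ∧
      (∀ c, c ≠ C.l r → c ≠ Xb.2 → C.s c * Xb.1 + t' c ≠ C.s (C.l r) * Xb.1 + t' (C.l r)) ∧
      ∑ c, (if C.s c * Xb.1 + t' c < C.s (C.l r) * Xb.1 + t' (C.l r) then 1 else 0)
        = κ r - 1 := by
    intro r
    have h0 : C.s (C.l r) * C.x r false + t' (C.l r) < C.y r false :=
      (hpos r false (C.l r)).mpr (C.hl0 r)
    have h1 : C.y r true < C.s (C.l r) * C.x r true + t' (C.l r) := by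
      rcases lt_trichotomy (C.s (C.l r) * C.x r true + t' (C.l r)) (C.y r true) with h | h | h
      · exact absurd ((hpos r true (C.l r)).mp h) (not_lt.mpr (C.hl1 r).le)
      · exact absurd h (hne' r true (C.l r))
      · exact h
    obtain ⟨X, b, h⟩ := extract C.s t' hz2 (C.hlt r) (C.l r)
      (by convert hcnt r false) (by convert hcnt r true) h0 h1
    refine ⟨(X, b), h.1, h.2.1, h.2.2.1, h.2.2.2.1, h.2.2.2.2.1, ?_⟩
    convert h.2.2.2.2.2
  choose Xb hXb using hex
  have hginj : Function.Injective (fun i => ((C.s i, t' i) : ℝ × ℝ)) := by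
    intro i j hij
    by_contra hne
    simp only [Prod.mk.injEq] at hij
    exact hz2.2 i j hne hij.1 hij.2
  set Γ : Finset (ℝ × ℝ) := Finset.univ.image (fun i => ((C.s i, t' i) : ℝ × ℝ)) with hΓ
  have hver : ∀ r, IsVertex Γ k ((Xb r).1, C.s (C.l r) * (Xb r).1 + t' (C.l r)) := by
    intro r
    obtain ⟨-, -, h3, h4, h5, h6⟩ := hXb r
    have h7 := vertex_of_cross C.s t' hginj Γ (fun l => by simp [hΓ]) (C.l r) (Xb r).2 (Xb r).1
      h3 h4 h5 (κ r - 1) (by rw [Finset.card_filter]; convert h6)
    have h8 := hκ1 r
    rcases hκ r with h | h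
    · have e : κ r - 1 = k := by omega
      rw [e] at h7
      exact h7.1
    · have e : κ r - 1 + 1 = k := by omega
      rw [e] at h7
      exact h7.2
  set G : Q → ℝ × ℝ := fun r => ((Xb r).1, C.s (C.l r) * (Xb r).1 + t' (C.l r)) with hG
  have hGinj : Function.Injective G := by
    intro r r' h
    simp only [hG, Prod.mk.injEq] at h
    by_contra hne
    by_cases hk : κ r = κ r'
    · rcases C.hdisj r r' hne hk with h1 | h1
      · have := (hXb r).2.1
        have := (hXb r').1
        linarith [h.1]
      · have := (hXb r').2.1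
        have := (hXb r).1
        linarith [h.1]
    · apply hk
      have h6 := (hXb r).2.2.2.2.2
      have h6' := (hXb r').2.2.2.2.2
      rw [h.1, ← h.1, h.2] at h6
      rw [← h.1] at h6'
      have h8 := hκ1 r
      have h9 := hκ1 r'
      have e : κ r - 1 = κ r' - 1 := by
        rw [← h6, ← h6', ← h.1]
      omega
  refine ⟨Γ, ?_, ?_, ?_, ?_⟩
  · rw [hΓ, Finset.card_image_of_injective _ hginj, Finset.card_univ]
  · intro l hl
    rw [hΓ, Finset.mem_image] at hl
    obtain ⟨i, -, rfl⟩ := hl
    exact ⟨i, rfl⟩
  · intro l hl m hm j hj hlm hlj hmj x hx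
    rw [hΓ, Finset.mem_image] at hl hm hj
    obtain ⟨a, -, rfl⟩ := hl
    obtain ⟨b, -, rfl⟩ := hm
    obtain ⟨c, -, rfl⟩ := hj
    exact hz2.1 a b c (fun h => hlm (by rw [h])) (fun h => hlj (by rw [h]))
      (fun h => hmj (by rw [h])) x hx.1 hx.2
  · calc Fintype.card Q = (Set.range G).ncard := by
          rw [← Set.image_univ, Set.ncard_image_of_injective _ hGinj, Set.ncard_univ,
            Nat.card_eq_fintype_card]
      _ ≤ complexity Γ k := by
          unfold complexity
          apply Set.ncard_le_ncard _ (vertices_finite Γ k)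
          rintro _ ⟨r, rfl⟩
          exact hver r

end Pool.Agent.L0h27.FS2
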