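import Pool.Agent.L0h27.FS2.Bend

/-!
# Point sets with few convex layers and many bisectors
-/

namespace Pool.Agent.L0h27.FS2

open Finset Filter Topology KLev

/-- the events with a given count -/
def VC.restrict {ι Q : Type} [Fintype ι] {κ : Q → ℕ} (C : VC ι Q κ) (M : ℕ) :
    VC ι {q : Q // κ q = M} (fun _ => M) where
  s := C.s
  t := C.t
  x := fun q => C.x q.1
  y := fun q => C.y q.1
  l := fun q => C.l q.1
  hlt := fun q => C.hlt q.1
  hdisj := fun q q' h _ => C.hdisj q.1 q'.1 (fun h' => h (Subtype.ext h')) (q.2.trans q'.2.symm)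
  hne := fun q => C.hne q.1
  hcard := fun q b => (C.hcard q.1 b).trans q.2
  hl0 := fun q => C.hl0 q.1
  hl1 := fun q => C.hl1 q.1

theorem VC.cast_s {ι Q : Type} [Fintype ι] {κ κ' : Q → ℕ} (h : κ = κ') (C : VC ι Q κ) :
    ∃ C' : VC ι Q κ', C'.s = C.s := by
  subst h
  exact ⟨C, rfl⟩

theorem exists_points {d M E : ℕ} (h : W d M E) (c m : ℕ) (hd : d + 1 ≤ 2 * c)
    (hM : 1 ≤ M) (hm : M + 1 ≤ m) :
    ∃ P : Finset (ℝ × ℝ), Pool.Agent.W296.HL.GeneralPosition P ∧ #P = 2 * m ∧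
      Pool.Agent.W296.HL.layers P ≤ c ∧
      (∃ A : Fin c → Finset (ℝ × ℝ), (∀ i, Pool.Agent.TH511.HLC.ConvexPosition (A i)) ∧
        ∀ p ∈ P, ∃ i, p ∈ A i) ∧
      E ≤ 2 * {L | Pool.Agent.W296.HL.IsBisector P L}.ncard := by
  classical
  obtain ⟨A, B, Q, _, _, _, κ, C, σ, T, hA, hB, hQ, hsA, hsB, htA, hT, hTd, hκ⟩ := h
  -- one of the two types of events is frequent
  have hsplit : E ≤ Fintype.card {q : Q // κ q = M} + Fintype.card {q : Q // κ q = M - 1} := by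
    rw [← hQ, Fintype.card_subtype, Fintype.card_subtype, ← Finset.card_univ]
    refine le_trans (Finset.card_le_card ?_) (Finset.card_union_le _ _)
    intro q _
    rw [Finset.mem_union, Finset.mem_filter, Finset.mem_filter]
    rcases hκ q with h | h
    · exact Or.inl ⟨Finset.mem_univ _, h⟩
    · exact Or.inr ⟨Finset.mem_univ _, by omega⟩
  have key : ∀ (M' : ℕ), (M' = M ∨ M' = M - 1) →
      ∃ P : Finset (ℝ × ℝ), Pool.Agent.W296.HL.GeneralPosition P ∧ #P = 2 * m ∧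
      Pool.Agent.W296.HL.layers P ≤ c ∧
      (∃ A : Fin c → Finset (ℝ × ℝ), (∀ i, Pool.Agent.TH511.HLC.ConvexPosition (A i)) ∧
        ∀ p ∈ P, ∃ i, p ∈ A i) ∧
      Fintype.card {q : Q // κ q = M'} ≤
        {L | Pool.Agent.W296.HL.IsBisector P L}.ncard := by
    intro M' hM'
    have hMm : M' ≤ m := by omega
    obtain ⟨C', hC'⟩ := (C.restrict M').pad σ (2 * m - 2 * M - (m - M')) (m - M')
    obtain ⟨C'', hC''⟩ := VC.cast_s (κ' := fun _ => (m - 1) + 1)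
      (funext fun _ => (by omega : M' + (m - M') = (m - 1) + 1)) C'
    obtain ⟨P, g1, g2, g3, g4, g5⟩ := C''.bend (by
      simp only [Fintype.card_sum, Fintype.card_fin, hA, hB]
      omega) (insert σ T) (by
      intro i
      rw [hC'', hC']
      rcases i with (i | i) | i
      · simp only [Sum.elim_inl]
        show C.s (Sum.inl i) ∈ _
        rw [hsA i]
        exact Finset.mem_insert_self _ _
      · simp only [Sum.elim_inl]
        exact Finset.mem_insert_of_mem (hT i)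
      · simp) c ((Finset.card_insert_le _ _).trans (by omega))
    refine ⟨P, g1, by rw [g2]; omega, g3, g4, g5⟩
  rcases Nat.le_total (Fintype.card {q : Q // κ q = M}) (Fintype.card {q : Q // κ q = M - 1})
    with hle | hle
  · obtain ⟨P, g1, g2, g3, g4, g5⟩ := key (M - 1) (Or.inr rfl)
    exact ⟨P, g1, g2, g3, g4, by omega⟩
  · obtain ⟨P, g1, g2, g3, g4, g5⟩ := key M (Or.inl rfl)
    exact ⟨P, g1, g2, g3, g4, by omega⟩

/-- the explicit lower bound -/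
theorem layers_lower (c N m : ℕ) (hc : 1 ≤ c) (hN : 2 ≤ N) (hcN : c ≤ N + 1)
    (hm : N ^ (2 * c - 2) + 1 ≤ m) :
    ∃ P : Finset (ℝ × ℝ), Pool.Agent.W296.HL.GeneralPosition P ∧ #P = 2 * m ∧
      Pool.Agent.W296.HL.layers P ≤ c ∧
      (∃ A : Fin c → Finset (ℝ × ℝ), (∀ i, Pool.Agent.TH511.HLC.ConvexPosition (A i)) ∧
        ∀ p ∈ P, ∃ i, p ∈ A i) ∧
      (2 * (c:ℝ) - 1) * (1 - ((c:ℝ) - 1) / N) * (m - 1 - 3 / 2 * (N:ℝ) ^ (2 * c - 2)) ≤
        {L | Pool.Agent.W296.HL.IsBisector P L}.ncard := by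
  classical
  obtain ⟨R, rfl⟩ : ∃ R, N = R + 1 := ⟨N - 1, by omega⟩
  obtain ⟨j, rfl⟩ : ∃ j, c = j + 1 := ⟨c - 1, by omega⟩
  have ej : 2 * (j + 1) - 2 = 2 * j := by omega
  rw [ej] at hm ⊢
  have hpow : 0 < (R + 1) ^ (2 * j) := by positivity
  set r := (m - 1) / (R + 1) ^ (2 * j) with hrdef
  have hr : 1 ≤ r := Nat.div_pos (by omega) hpow
  obtain ⟨E, hW, hE⟩ := iter r R hr (by omega) (2 * j)
  have h1 : (R + 1) ^ (2 * j) * r ≤ m - 1 := Nat.mul_div_le (m - 1) _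
  have hM1 : 1 ≤ (R + 1) ^ (2 * j) * r := Nat.one_le_iff_ne_zero.mpr (by positivity)
  obtain ⟨P, g1, g2, g3, g4, g5⟩ := exists_points hW (j + 1) m (by omega) hM1 (by omega)
  refine ⟨P, g1, g2, g3, g4, ?_⟩
  have h2 : m - 1 < (R + 1) ^ (2 * j) * (r + 1) := Nat.lt_mul_div_succ (m - 1) hpow
  have h2' : m ≤ (R + 1) ^ (2 * j) * (r + 1) := by omega
  have h3 : (m:ℝ) ≤ (R + 1) ^ (2 * j) * (r + 1) := by exact_mod_cast h2'
  have hfac : (0:ℝ) ≤ (2 * ((j + 1 : ℕ) : ℝ) - 1) *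
      (1 - (((j + 1 : ℕ) : ℝ) - 1) / ((R + 1 : ℕ) : ℝ)) := by
    apply mul_nonneg
    · push_cast; have : (0:ℝ) ≤ j := by positivity
      linarith
    · rw [sub_nonneg, div_le_one (by positivity)]
      have : ((j + 1 : ℕ) : ℝ) ≤ ((R + 1 + 1 : ℕ) : ℝ) := by exact_mod_cast hcN
      push_cast at this ⊢
      linarith
  have h4 : (m:ℝ) - 1 - 3 / 2 * (((R + 1 : ℕ) : ℝ)) ^ (2 * j) ≤
      1 / 2 * ((R + 1) ^ (2 * j) * (2 * r - 1)) := by
    push_cast
    linarith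
  refine (mul_le_mul_of_nonneg_left h4 hfac).trans ?_
  have h5 : (E:ℝ) ≤ 2 * ({L | Pool.Agent.W296.HL.IsBisector P L}.ncard : ℝ) := by
    exact_mod_cast g5
  set b := ({L | Pool.Agent.W296.HL.IsBisector P L}.ncard : ℝ) with hb
  have h6 : (4 * ((R:ℝ) + 1)) * ((2 * ((j + 1 : ℕ) : ℝ) - 1) *
      (1 - (((j + 1 : ℕ) : ℝ) - 1) / ((R + 1 : ℕ) : ℝ)) *
        (1 / 2 * ((R + 1) ^ (2 * j) * (2 * r - 1)))) =
      ((R:ℝ) + 1) ^ (2 * j) * (2 * r - 1) * (((2 * j : ℕ) + 1) * (2 * (R + 1) - (2 * j : ℕ))) := by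
    push_cast
    have : (R:ℝ) + 1 ≠ 0 := by positivity
    field_simp
    ring
  have h7 : (0:ℝ) < 4 * ((R:ℝ) + 1) := by positivity
  refine le_of_mul_le_mul_left ?_ h7
  rw [h6]
  refine hE.trans ?_
  have h8 : (0:ℝ) ≤ 2 * ((R:ℝ) + 1) := by positivity
  nlinarith [mul_le_mul_of_nonneg_left h5 h8]

end Pool.Agent.L0h27.FS2
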