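import Pool.Agent.L0h27.FS2.Step

/-!
# The lower bound
-/

namespace Pool.Agent.L0h27.FS2

open Finset Filter Topology KLev.Levels

/-- far away lines of a given slope can be added above and below -/
theorem VC.pad {ι Q : Type} [Fintype ι] [Finite Q] {κ : Q → ℕ} (C : VC ι Q κ) (s₀ : ℝ)
    (p q : ℕ) :
    ∃ C' : VC (ι ⊕ (Fin p ⊕ Fin q)) Q (fun r => κ r + q), C'.s = Sum.elim C.s (fun _ => s₀) := by
  classical
  cases nonempty_fintype Q
  obtain ⟨T, hT⟩ : ∃ T : ℝ, ∀ r b, |C.y r b - s₀ * C.x r b| < T := by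
    refine ⟨∑ r, ∑ b, |C.y r b - s₀ * C.x r b| + 1, ?_⟩
    intro r b
    have h1 : |C.y r b - s₀ * C.x r b| ≤ ∑ b', |C.y r b' - s₀ * C.x r b'| :=
      Finset.single_le_sum (f := fun b' => |C.y r b' - s₀ * C.x r b'|) (fun _ _ => abs_nonneg _)
        (Finset.mem_univ b)
    have h2 : ∑ b', |C.y r b' - s₀ * C.x r b'| ≤ ∑ r', ∑ b', |C.y r' b' - s₀ * C.x r' b'| :=
      Finset.single_le_sum (f := fun r' => ∑ b', |C.y r' b' - s₀ * C.x r' b'|)
        (fun _ _ => Finset.sum_nonneg (fun _ _ => abs_nonneg _)) (Finset.mem_univ r)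
    linarith
  refine ⟨{
    s := Sum.elim C.s (fun _ => s₀)
    t := Sum.elim C.t (Sum.elim (fun _ => T) (fun _ => -T))
    x := C.x, y := C.y, l := fun r => Sum.inl (C.l r)
    hlt := C.hlt, hdisj := ?_, hne := ?_, hcard := ?_
    hl0 := fun r => by simpa using C.hl0 r, hl1 := fun r => by simpa using C.hl1 r }, rfl⟩
  · intro r r' h h'
    exact C.hdisj r r' h (by simpa using h')
  · rintro r b (i | i | i)
    · simpa using C.hne r b i
    · have := abs_lt.mp (hT r b)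
      simp only [Sum.elim_inr, Sum.elim_inl]
      intro h; linarith [this.2]
    · have := abs_lt.mp (hT r b)
      simp only [Sum.elim_inr]
      intro h; linarith [this.1]
  · intro r b
    have h := abs_lt.mp (hT r b)
    rw [Fintype.sum_sum_type, Fintype.sum_sum_type]
    have e1 : ¬ (s₀ * C.x r b + T < C.y r b) := by linarith [h.2]
    have e2 : s₀ * C.x r b + -T < C.y r b := by linarith [h.1]
    simp only [Sum.elim_inl, Sum.elim_inr, e1, e2, if_true, if_false]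
    refine congrArg₂ (· + ·) (Eq.trans (Finset.sum_congr rfl fun i _ => ?_) (C.hcard r b))
      (by simp)
    congr

theorem exists_family {d M E : ℕ} (h : W d M E) (k n : ℕ) (h1 : M ≤ k + 1)
    (h2 : M + k + 1 ≤ n) :
    ∃ Γ : Finset (ℝ × ℝ), Γ.card = n ∧ (Γ.image Prod.fst).card ≤ d + 1 ∧ NoThree Γ ∧
      E ≤ complexity Γ k := by
  classical
  obtain ⟨A, B, Q, _, _, _, κ, C, σ, T, hA, hB, hQ, hsA, hsB, htA, hT, hTd, hκ⟩ := h
  obtain ⟨C', hC'⟩ := C.pad σ (n - 2 * M - (k + 1 - M)) (k + 1 - M)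
  obtain ⟨Γ, g1, g2, g3, g4⟩ := C'.final k (fun q => by
    rcases hκ q with h | h
    · left; omega
    · right; omega)
  refine ⟨Γ, ?_, ?_, g3, ?_⟩
  · rw [g1]
    simp only [Fintype.card_sum, Fintype.card_fin, hA, hB]
    omega
  · refine (Finset.card_le_card (t := insert σ T) ?_).trans
      ((Finset.card_insert_le _ _).trans (by omega))
    intro x hx
    rw [Finset.mem_image] at hx
    obtain ⟨l, hl, rfl⟩ := hx
    obtain ⟨i, hi⟩ := g2 l hl
    rw [← hi, hC']
    rcases i with (i | i) | i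
    · simp only [Sum.elim_inl]
      rw [hsA i]
      exact Finset.mem_insert_self _ _
    · simp only [Sum.elim_inl]
      exact Finset.mem_insert_of_mem (hT i)
    · simp
  · rw [← hQ]
    exact g4

lemma iter (r R : ℕ) (hr : 1 ≤ r) (hR : 1 ≤ R) (j : ℕ) : ∃ E, W (j + 1) ((R + 1) ^ j * r) E ∧
    ((R:ℝ) + 1) ^ j * (2 * r - 1) * ((j + 1) * (2 * (R + 1) - j)) ≤ 2 * (R + 1) * E := by
  induction j with
  | zero =>
    refine ⟨r + (r - 1), by simpa using step (W_zero r) 0, ?_⟩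
    have e : ((r + (r - 1) : ℕ) : ℝ) = 2 * r - 1 := by
      rw [Nat.cast_add, Nat.cast_sub hr]; push_cast; ring
    rw [e]
    push_cast
    apply le_of_eq
    ring
  | succ j ih =>
    obtain ⟨E, h, hE⟩ := ih
    have h1 := step h R
    rw [if_neg (by omega)] at h1
    have e0 : (R + 1) * ((R + 1) ^ j * r) = (R + 1) ^ (j + 1) * r := by ring
    rw [e0] at h1
    refine ⟨_, h1, ?_⟩
    set K : ℕ := (R + 1) ^ j with hK
    have hK1 : 1 ≤ K := Nat.one_le_pow _ _ (by omega)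
    have hKr : 1 ≤ K * r := Nat.one_le_iff_ne_zero.mpr (by positivity)
    have eK : ((R:ℝ) + 1) ^ j = K := by rw [hK]; push_cast; rfl
    rw [eK] at hE
    rw [pow_succ, eK]
    have e1 : ((K * r + (K * r - 1) : ℕ) : ℝ) = 2 * (K * r) - 1 := by
      rw [Nat.cast_add, Nat.cast_sub hKr]; push_cast; ring
    have e2 : ((R * E + (R + 1) * (K * r + (K * r - 1)) : ℕ) : ℝ) =
        R * E + (R + 1) * (2 * (K * r) - 1) := by
      rw [Nat.cast_add, Nat.cast_mul, Nat.cast_mul, e1]; push_cast; ring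
    rw [e2]
    push_cast
    have hK1' : (1:ℝ) ≤ K := by exact_mod_cast hK1
    have hr' : (1:ℝ) ≤ r := by exact_mod_cast hr
    have hR' : (1:ℝ) ≤ R := by exact_mod_cast hR
    have hj' : (0:ℝ) ≤ j := by positivity
    have h2 := mul_le_mul_of_nonneg_left hE (by linarith : (0:ℝ) ≤ R)
    have h3 : (K:ℝ) * (2 * r - 1) ≤ 2 * (K * r) - 1 := by nlinarith
    have h4 := mul_le_mul_of_nonneg_left h3 (by positivity : (0:ℝ) ≤ 2 * (R + 1) * (R + 1))
    have h5 : (0:ℝ) ≤ K * (2 * r - 1) * (j * (j + 1)) := by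
      have : (0:ℝ) ≤ 2 * r - 1 := by linarith
      positivity
    nlinarith [h2, h4, h5]

/-- the explicit lower bound -/
theorem lower (D N : ℕ) (hD : 2 ≤ D) (hN : 2 ≤ N) (hDN : D ≤ 2 * N + 2) (n k : ℕ) (hk : k < n) :
    ∃ Γ : Finset (ℝ × ℝ), Γ.card = n ∧ (Γ.image Prod.fst).card ≤ D ∧ NoThree Γ ∧
      ((D:ℝ) - 1) * (1 - ((D:ℝ) - 2) / (2 * N)) *
        (2 * (min (k + 1) (n - k - 1) : ℕ) - 3 * (N:ℝ) ^ (D - 2)) ≤ complexity Γ k := by
  classical
  obtain ⟨R, rfl⟩ : ∃ R, N = R + 1 := ⟨N - 1, by omega⟩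
  obtain ⟨j, rfl⟩ : ∃ j, D = j + 2 := ⟨D - 2, by omega⟩
  rw [show j + 2 - 2 = j from rfl]
  set m := min (k + 1) (n - k - 1) with hm
  have hN0 : (0:ℝ) < 2 * ((R + 1 : ℕ) : ℝ) := by positivity
  have hfac : (0:ℝ) ≤ (((j + 2 : ℕ) : ℝ) - 1) * (1 - (((j + 2 : ℕ) : ℝ) - 2) /
      (2 * ((R + 1 : ℕ) : ℝ))) := by
    apply mul_nonneg
    · push_cast; have : (0:ℝ) ≤ j := by positivity
      linarith
    · rw [sub_nonneg, div_le_one hN0]
      have : ((j + 2 : ℕ) : ℝ) ≤ ((2 * (R + 1) + 2 : ℕ) : ℝ) := by exact_mod_cast hDN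
      push_cast at this ⊢
      linarith
  have hpow : 0 < (R + 1) ^ j := by positivity
  by_cases hr : 1 ≤ m / (R + 1) ^ j
  · set r := m / (R + 1) ^ j with hrdef
    obtain ⟨E, hW, hE⟩ := iter r R hr (by omega) j
    have h1 : (R + 1) ^ j * r ≤ m := Nat.mul_div_le m _
    have hm1 : m ≤ k + 1 := min_le_left _ _
    have hm2 : m ≤ n - k - 1 := min_le_right _ _
    obtain ⟨Γ, g1, g2, g3, g4⟩ := exists_family hW k n (by omega) (by omega)
    refine ⟨Γ, g1, g2, g3, ?_⟩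
    have h2 : m < (R + 1) ^ j * (r + 1) := Nat.lt_mul_div_succ m hpow
    have h3 : (m:ℝ) ≤ (R + 1) ^ j * (r + 1) := by exact_mod_cast h2.le
    have h4 : 2 * (m:ℝ) - 3 * (((R + 1 : ℕ) : ℝ)) ^ j ≤ (R + 1) ^ j * (2 * r - 1) := by
      push_cast
      linarith
    refine (mul_le_mul_of_nonneg_left h4 hfac).trans ?_
    have h5 : (E:ℝ) ≤ complexity Γ k := by exact_mod_cast g4
    refine le_trans ?_ h5
    have h6 : (2 * ((R:ℝ) + 1)) * ((((j + 2 : ℕ) : ℝ) - 1) * (1 - (((j + 2 : ℕ) : ℝ) - 2) /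
      (2 * ((R + 1 : ℕ) : ℝ))) * ((R + 1) ^ j * (2 * r - 1))) =
      ((R:ℝ) + 1) ^ j * (2 * r - 1) * ((j + 1) * (2 * (R + 1) - j)) := by
      push_cast
      have : (R:ℝ) + 1 ≠ 0 := by positivity
      field_simp
      ring
    have h7 : (0:ℝ) < 2 * ((R:ℝ) + 1) := by positivity
    rw [← h6] at hE
    exact le_of_mul_le_mul_left hE h7
  · -- few lines: any parallel family
    have hm0 : m < (R + 1) ^ j := by
      by_contra h'
      exact hr (Nat.div_pos (not_lt.mp h') hpow)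
    have hinj : Function.Injective (fun i : Fin n => (((0:ℝ), (i.val:ℝ)) : ℝ × ℝ)) := by
      intro a b h
      simp only [Prod.mk.injEq, Nat.cast_inj, true_and] at h
      exact Fin.ext h
    refine ⟨Finset.univ.image (fun i : Fin n => ((0:ℝ), (i.val:ℝ))), ?_, ?_, ?_, ?_⟩
    · rw [Finset.card_image_of_injective _ hinj]
      simp
    · refine (Finset.card_le_card (t := {(0:ℝ)}) ?_).trans (by simp)
      intro x hx
      simp only [Finset.mem_image, Finset.mem_univ, true_and] at hx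
      obtain ⟨l, ⟨i, rfl⟩, rfl⟩ := hx
      simp
    · intro l hl m' hm' j' hj' h1 h2 h3 x hx
      simp only [Finset.mem_image, Finset.mem_univ, true_and] at hl hm' hj'
      obtain ⟨a, rfl⟩ := hl
      obtain ⟨b, rfl⟩ := hm'
      apply h1
      have := hx.1
      simp only [height, zero_mul, zero_add] at this
      rw [this]
    · refine le_trans ?_ (Nat.cast_nonneg _)
      apply mul_nonpos_of_nonneg_of_nonpos hfac
      have h3 : (m:ℝ) ≤ (R + 1) ^ j := by exact_mod_cast hm0.le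
      have h4 : (0:ℝ) ≤ (R + 1) ^ j := by positivity
      push_cast
      linarith

end Pool.Agent.L0h27.FS2
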