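import Pool.Agent.L0h27.FS2.Core

/-!
# The recursion
-/

namespace Pool.Agent.L0h27.FS2

open Finset Filter Topology

/-! ### Sums of indicator functions -/

lemma sum_lt (n m c : ℕ) (h : m ≤ n) : ∑ i : Fin n, (if i.val < m then c else 0) = m * c := by
  rw [Fin.sum_univ_eq_sum_range (fun i => if i < m then c else 0) n, ← Finset.sum_filter,
    Finset.sum_const, smul_eq_mul]
  have : (range n).filter (fun i => i < m) = range m := by
    ext i; simp only [Finset.mem_filter, Finset.mem_range]; omega
  rw [this, Finset.card_range]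

lemma sum_ge (n m c : ℕ) : ∑ i : Fin n, (if m ≤ i.val then c else 0) = (n - m) * c := by
  rw [Fin.sum_univ_eq_sum_range (fun i => if m ≤ i then c else 0) n, ← Finset.sum_filter,
    Finset.sum_const, smul_eq_mul]
  have : (range n).filter (fun i => m ≤ i) = Finset.Ico m n := by
    ext i; simp only [Finset.mem_filter, Finset.mem_range, Finset.mem_Ico]; omega
  rw [this, Nat.card_Ico]

lemma sum_eq (n m z : ℕ) (h : m < n) : ∑ i : Fin n, (if i.val = m then z else 0) = z := by
  rw [Fin.sum_univ_eq_sum_range (fun i => if i = m then z else 0) n]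
  simp [h]

lemma sum_lt3 (n m c z : ℕ) (h : m < n) :
    ∑ i : Fin n, (if i.val < m then c else if i.val = m then z else 0) = m * c + z := by
  have h1 := sum_lt n m c h.le
  have h2 := sum_eq n m z h
  rw [← h1]
  conv_rhs => rw [← h2]
  rw [← Finset.sum_add_distrib]
  apply Finset.sum_congr rfl
  intro i _
  split_ifs <;> omega

lemma sum_gt3 (n m c z : ℕ) (h : m < n) :
    ∑ i : Fin n, (if m < i.val then c else if i.val = m then z else 0) = (n - 1 - m) * c + z := by
  have e : n - 1 - m = n - (m + 1) := by omega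
  have h1 := sum_ge n (m + 1) c
  have h2 := sum_eq n m z h
  rw [e, ← h1]
  conv_rhs => rw [← h2]
  rw [← Finset.sum_add_distrib]
  apply Finset.sum_congr rfl
  intro i _
  split_ifs <;> omega

/-- thresholds separating distinct reals -/
lemma exists_thr {A : Type} [Fintype A] (f : A → ℝ) (hf : Function.Injective f) :
    ∃ θ : ℕ → ℝ, (∀ j ≤ Fintype.card A, ∑ a, (if f a < θ j then 1 else 0) = j) ∧
      (∀ j a, f a ≠ θ j) ∧ ∀ j < Fintype.card A, ∃ a, θ j < f a ∧ f a < θ (j + 1) := by
  classical
  set n := Fintype.card A with hn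
  set e : Fin n ≃ A := (Fintype.equivFin A).symm with he
  set ρ : Fin n ≃ A := (Tuple.sort (f ∘ e)).trans e with hρ
  have hmono : StrictMono (fun i => f (ρ i)) := by
    have h1 : Monotone ((f ∘ e) ∘ Tuple.sort (f ∘ e)) := Tuple.monotone_sort (f ∘ e)
    have h2 : Function.Injective (fun i => f (ρ i)) := hf.comp ρ.injective
    exact Monotone.strictMono_of_injective h1 h2
  have hex : ∀ j : ℕ, ∃ θ : ℝ, ∀ i : Fin n, (i.val < j → f (ρ i) < θ) ∧
      (j ≤ i.val → θ < f (ρ i)) := by
    intro j
    obtain ⟨θ, h1, h2⟩ := Order.exists_between_finsets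
      ((Finset.univ.filter (fun i : Fin n => i.val < j)).image (fun i => f (ρ i)))
      ((Finset.univ.filter (fun i : Fin n => j ≤ i.val)).image (fun i => f (ρ i)))
      (by
        intro x hx y hy
        simp only [Finset.mem_image, Finset.mem_filter, Finset.mem_univ, true_and] at hx hy
        obtain ⟨i, hi, rfl⟩ := hx
        obtain ⟨i', hi', rfl⟩ := hy
        exact hmono (Fin.lt_def.mpr (by omega)))
    refine ⟨θ, fun i => ⟨fun h => h1 _ ?_, fun h => h2 _ ?_⟩⟩
    · exact Finset.mem_image_of_mem _ (by simpa using h)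
    · exact Finset.mem_image_of_mem _ (by simpa using h)
  choose θ hθ using hex
  have hiff : ∀ j i, (f (ρ i) < θ j ↔ i.val < j) := by
    intro j i
    constructor
    · intro h
      by_contra h'
      exact absurd ((hθ j i).2 (by omega)) (not_lt.mpr h.le)
    · exact (hθ j i).1
  refine ⟨θ, ?_, ?_, ?_⟩
  · intro j hj
    rw [← Equiv.sum_comp ρ]
    simp only [hiff]
    rw [sum_lt n j 1 hj, mul_one]
  · intro j a
    obtain ⟨i, rfl⟩ := ρ.surjective a
    rcases lt_or_ge i.val j with h | h
    · exact ((hθ j i).1 h).ne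
    · exact ((hθ j i).2 h).ne'
  · intro j hj
    exact ⟨ρ ⟨j, hj⟩, (hθ j ⟨j, hj⟩).2 (le_refl _), (hθ (j + 1) ⟨j, hj⟩).1 (Nat.lt_succ_self _)⟩

lemma steep (x y c : ℝ) : ∀ᶠ S in atTop, (c < x → -S * x + S * c < y) ∧
    (x < c → y < -S * x + S * c) := by
  rcases lt_trichotomy c x with h | h | h
  · have h1 : Tendsto (fun S : ℝ => (x - c) * S) atTop atTop :=
      tendsto_id.const_mul_atTop (sub_pos.mpr h)
    filter_upwards [h1.eventually_gt_atTop (-y)] with S hS
    refine ⟨fun _ => by nlinarith, fun h' => absurd h' (not_lt.mpr h.le)⟩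
  · subst h
    exact Filter.Eventually.of_forall (fun S => ⟨fun h => absurd h (lt_irrefl _),
      fun h => absurd h (lt_irrefl _)⟩)
  · have h1 : Tendsto (fun S : ℝ => (c - x) * S) atTop atTop :=
      tendsto_id.const_mul_atTop (sub_pos.mpr h)
    filter_upwards [h1.eventually_gt_atTop y] with S hS
    refine ⟨fun h' => absurd h' (not_lt.mpr h.le), fun _ => by nlinarith⟩

lemma iff_of_signs {p : Prop} {u v : ℝ} (h : (p → u < v) ∧ (¬ p → v < u)) : (u < v ↔ p) :=
  ⟨fun h1 => by_contra fun h2 => absurd (h.2 h2) (not_lt.mpr h1.le), h.1⟩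

lemma ne_of_signs {p : Prop} {u v : ℝ} (h : (p → u < v) ∧ (¬ p → v < u)) : u ≠ v := by
  by_cases hp : p
  · exact (h.1 hp).ne
  · exact (h.2 hp).ne'

lemma big {a : ℝ} (ha : 0 < a) (z : ℝ) : ∀ᶠ τ in atTop, z < a * τ :=
  (tendsto_id.const_mul_atTop ha).eventually_gt_atTop z

/-- A system with `M` lines of one slope `σ`, with `M` lines of slopes `> σ` from a set of at
most `d` slopes, and with `E` events of counts `M` and `M - 1`. -/
def W (d M E : ℕ) : Prop :=
  ∃ (A B Q : Type) (_ : Fintype A) (_ : Fintype B) (_ : Fintype Q) (κ : Q → ℕ)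
    (C : VC (A ⊕ B) Q κ) (σ : ℝ) (T : Finset ℝ),
    Fintype.card A = M ∧ Fintype.card B = M ∧ Fintype.card Q = E ∧
    (∀ a, C.s (Sum.inl a) = σ) ∧ (∀ b, σ < C.s (Sum.inr b)) ∧
    Function.Injective (fun a => C.t (Sum.inl a)) ∧ (∀ b, C.s (Sum.inr b) ∈ T) ∧ T.card ≤ d ∧
    ∀ q, κ q = M ∨ κ q + 1 = M

lemma W_zero (M : ℕ) : W 1 M 0 := by
  classical
  refine ⟨Fin M, Fin M, Fin 0, inferInstance, inferInstance, inferInstance, fun _ => 0,
    { s := Sum.elim (fun _ => 0) (fun _ => 1)
      t := Sum.elim (fun i => (i.val : ℝ)) (fun _ => 0)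
      x := fun q => q.elim0, y := fun q => q.elim0, l := fun q => q.elim0
      hlt := fun q => q.elim0, hdisj := fun q => q.elim0, hne := fun q => q.elim0
      hcard := fun q => q.elim0, hl0 := fun q => q.elim0, hl1 := fun q => q.elim0 },
    0, {1}, by simp, by simp, by simp, ?_, ?_, ?_, ?_, by simp, fun q => q.elim0⟩
  · intro a; simp
  · intro a; simp
  · intro a b h
    simp only [Sum.elim_inl, Nat.cast_inj] at h
    exact Fin.ext h
  · intro a; simp

set_option maxHeartbeats 1000000 in
theorem step {d b E : ℕ} (h : W d b E) (R : ℕ) :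
    W (if R = 0 then 1 else d + 1) ((R + 1) * b) (R * E + (R + 1) * (b + (b - 1))) := by
  classical
  obtain ⟨A, B, Q, _, _, _, κ, C, σ, T, hA, hB, hQ, hsA, hsB, htA, hT, hTd, hκ⟩ := h
  set P := Fin b ⊕ Fin (b - 1) with hP
  set wt : P → ℕ := Sum.elim (fun _ => b) (fun _ => b - 1) with hwtdef
  set idx : P → ℕ := Sum.elim (fun q => q.val) (fun q => q.val) with hidxdef
  have hidx : ∀ p, idx p < wt p := by
    rintro (q | q)
    · exact q.isLt
    · exact q.isLt
  have hwt : ∀ p, wt p ≤ b := by
    rintro (q | q)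
    · exact le_refl _
    · exact Nat.sub_le _ _
  have hpinj : ∀ p p', wt p = wt p' → idx p = idx p' → p = p' := by
    rintro (q | q) (q' | q') h1 h2
    · simp only [hidxdef, Sum.elim_inl] at h2
      rw [Fin.ext h2]
    · simp only [hwtdef, Sum.elim_inl, Sum.elim_inr] at h1
      have := q.isLt
      omega
    · simp only [hwtdef, Sum.elim_inl, Sum.elim_inr] at h1
      have := q'.isLt
      omega
    · simp only [hidxdef, Sum.elim_inr] at h2
      rw [Fin.ext h2]
  obtain ⟨θ, hθ1, hθ2, hθ3⟩ := exists_thr (fun a => C.t (Sum.inl a)) htA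
  rw [hA] at hθ1 hθ3
  -- the distance between the copies
  obtain ⟨τ, hτ1, hτ2, hτ3, hτ4⟩ : ∃ τ : ℝ, 2 < τ ∧ (∀ q c, |C.x q c| + 1 < τ / 2) ∧
      (∀ β q c, |C.s (Sum.inr β) * C.x q c + C.t (Sum.inr β) - C.y q c| <
        (C.s (Sum.inr β) - σ) * τ) ∧
      (∀ β (j : Fin (b + 1)), |C.t (Sum.inr β) - θ j| < (C.s (Sum.inr β) - σ) * (τ / 2 - 1)) := by
    refine Filter.Eventually.exists (f := atTop) ?_
    refine (eventually_gt_atTop 2).and (Filter.Eventually.and ?_ (Filter.Eventually.and ?_ ?_))
    · rw [eventually_all]; intro q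
      rw [eventually_all]; intro c
      filter_upwards [big (by norm_num : (0:ℝ) < 1 / 2) (|C.x q c| + 1)] with τ h
      linarith
    · rw [eventually_all]; intro β
      rw [eventually_all]; intro q
      rw [eventually_all]; intro c
      exact big (sub_pos.mpr (hsB β)) _
    · rw [eventually_all]; intro β
      rw [eventually_all]; intro j
      have h0 := sub_pos.mpr (hsB β)
      filter_upwards [big (half_pos h0) (|C.t (Sum.inr β) - θ j| + (C.s (Sum.inr β) - σ))]
        with τ h
      linarith
  set η : ℝ := 1 / ((b:ℝ) + 1) with hη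
  have hb0 : (0:ℝ) < (b:ℝ) + 1 := by positivity
  have hη0 : 0 < η := by rw [hη]; positivity
  have hηb : ((b:ℝ) + 1) * η = 1 := by rw [hη]; field_simp
  have hη1 : ∀ q : ℕ, q < b → ((q:ℝ) + 1) * η + η ≤ 1 := by
    intro q hq
    have h1 : (q:ℝ) + 1 ≤ b := by exact_mod_cast hq
    nlinarith
  have hmul : ∀ m n : ℕ, m ≤ n → (m:ℝ) * τ ≤ n * τ := by
    intro m n h
    have : (m:ℝ) ≤ n := by exact_mod_cast h
    nlinarith
  have hmul1 : ∀ m n : ℕ, m < n → (m:ℝ) * τ + τ ≤ n * τ := by
    intro m n h
    have : (m:ℝ) + 1 ≤ n := by exact_mod_cast h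
    nlinarith
  have hmuη : ∀ m n : ℕ, m ≤ n → (m:ℝ) * η ≤ n * η := by
    intro m n h
    have : (m:ℝ) ≤ n := by exact_mod_cast h
    nlinarith
  have hmuη1 : ∀ m n : ℕ, m < n → (m:ℝ) * η + η ≤ n * η := by
    intro m n h
    have : (m:ℝ) + 1 ≤ n := by exact_mod_cast h
    nlinarith
  have hpos0 : ∀ q : ℕ, 0 ≤ (q:ℝ) * η := fun q => by positivity
  set c : Fin (R + 1) × Fin b → ℝ := fun p =>
    ((p.1.val:ℕ):ℝ) * τ - τ / 2 + (((p.2.val:ℕ):ℝ) + 1) * η with hc
  set x' : (Fin R × Q) ⊕ (Fin (R + 1) × P) → Bool → ℝ :=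
    Sum.elim (fun p bb => C.x p.2 bb + ((p.1.val:ℕ):ℝ) * τ)
      (fun p bb => ((p.1.val:ℕ):ℝ) * τ - τ / 2 + (((idx p.2:ℕ):ℝ) + 1) * η +
        (if bb then η / 4 else -(η / 4))) with hx'
  set y' : (Fin R × Q) ⊕ (Fin (R + 1) × P) → Bool → ℝ :=
    Sum.elim (fun p bb => C.y p.2 bb + σ * (((p.1.val:ℕ):ℝ) * τ))
      (fun p bb => σ * x' (Sum.inr p) bb + θ (wt p.2 - idx p.2 - (if bb then 1 else 0))) with hy'
  -- which new steep lines are below
  set BelA : (Fin R × Q) ⊕ (Fin (R + 1) × P) → Bool → Fin (R + 1) × Fin b → Prop :=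
    Sum.elim (fun p _ a => a.1.val ≤ p.1.val)
      (fun p bb a => a.1.val < p.1.val ∨
        (a.1.val = p.1.val ∧ a.2.val < idx p.2 + (if bb then 1 else 0))) with hBelA
  have hcx : ∀ r bb a, (BelA r bb a → c a < x' r bb) ∧ (¬ BelA r bb a → x' r bb < c a) := by
    rintro (⟨i, q⟩ | ⟨i, p⟩) bb ⟨a1, a2⟩
    · have h1 := abs_lt.mp (show |C.x q bb| < τ / 2 - 1 by linarith [hτ2 q bb])
      have h2 := hη1 a2.val a2.isLt
      have h3 := hpos0 a2.val
      simp only [hBelA, hc, hx', Sum.elim_inl]
      constructor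
      · intro h
        have := hmul _ _ h
        linarith [h1.1]
      · intro h
        have := hmul1 _ _ (not_le.mp h)
        linarith [h1.2]
    · have h2 := hη1 a2.val a2.isLt
      have h3 := hpos0 a2.val
      have h4 := hη1 (idx p) ((hidx p).trans_le (hwt p))
      have h5 := hpos0 (idx p)
      simp only [hBelA, hc, hx', Sum.elim_inr]
      constructor
      · rintro (h | ⟨h, h'⟩)
        · have := hmul1 _ _ h
          cases bb <;> simp only [Bool.false_eq_true, if_false, if_true] <;> linarith
        · rw [h]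
          cases bb <;> simp only [Bool.false_eq_true, if_false, if_true] at h' ⊢
          · have := hmuη1 _ _ h'
            simp only [add_zero] at this
            linarith
          · have := hmuη1 _ _ h'
            push_cast at this
            linarith
      · intro h
        push Not at h
        obtain ⟨h, h'⟩ := h
        rcases Nat.lt_or_eq_of_le h with h6 | h6
        · have := hmul1 _ _ h6
          cases bb <;> simp only [Bool.false_eq_true, if_false, if_true] <;> linarith
        · have h7 := h' h6.symm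
          rw [← h6]
          cases bb <;> simp only [Bool.false_eq_true, if_false, if_true] at h7 ⊢
          · have := hmuη _ _ h7
            simp only [add_zero] at this
            linarith
          · have := hmuη _ _ h7
            push_cast at this
            linarith
  obtain ⟨S, hS0, hS1, hS2⟩ : ∃ S : ℝ, 0 < S ∧ -σ < S ∧ ∀ r bb a,
      (c a < x' r bb → -S * x' r bb + S * c a < y' r bb) ∧
      (x' r bb < c a → y' r bb < -S * x' r bb + S * c a) := by
    refine Filter.Eventually.exists (f := atTop) ?_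
    refine (eventually_gt_atTop 0).and ((eventually_gt_atTop (-σ)).and ?_)
    rw [eventually_all]; intro r
    rw [eventually_all]; intro bb
    rw [eventually_all]; intro a
    exact steep _ _ _
  set s' : (Fin (R + 1) × Fin b) ⊕ (A ⊕ (Fin R × B)) → ℝ :=
    Sum.elim (fun _ => -S) (Sum.elim (fun _ => σ) (fun p => C.s (Sum.inr p.2))) with hs'
  set t' : (Fin (R + 1) × Fin b) ⊕ (A ⊕ (Fin R × B)) → ℝ :=
    Sum.elim (fun p => S * c p) (Sum.elim (fun a => C.t (Sum.inl a))
      (fun p => C.t (Sum.inr p.2) -
        ((p.1.val:ℕ):ℝ) * ((C.s (Sum.inr p.2) - σ) * τ))) with ht'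
  -- which old lines of slope `σ` are below
  set BelO : (Fin R × Q) ⊕ (Fin (R + 1) × P) → Bool → A → Prop :=
    Sum.elim (fun p bb a => C.s (Sum.inl a) * C.x p.2 bb + C.t (Sum.inl a) < C.y p.2 bb)
      (fun p bb a => C.t (Sum.inl a) < θ (wt p.2 - idx p.2 - (if bb then 1 else 0))) with hBelO
  -- which copies of the other old lines are below
  set BelB : (Fin R × Q) ⊕ (Fin (R + 1) × P) → Bool → Fin R × B → Prop :=
    Sum.elim (fun p bb a => p.1.val < a.1.val ∨ (a.1.val = p.1.val ∧
        C.s (Sum.inr a.2) * C.x p.2 bb + C.t (Sum.inr a.2) < C.y p.2 bb))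
      (fun p _ a => p.1.val ≤ a.1.val) with hBelB
  have hO : ∀ r bb a, (BelO r bb a → σ * x' r bb + C.t (Sum.inl a) < y' r bb) ∧
      (¬ BelO r bb a → y' r bb < σ * x' r bb + C.t (Sum.inl a)) := by
    rintro (⟨i, q⟩ | ⟨i, p⟩) bb a
    · have h1 := C.hne q bb (Sum.inl a)
      simp only [hBelO, hx', hy', Sum.elim_inl]
      rw [hsA a] at h1 ⊢
      constructor
      · intro h
        linarith
      · intro h
        have h2 := lt_of_le_of_ne (not_lt.mp h) h1.symm
        linarith
    · have h1 := hθ2 (wt p - idx p - (if bb then 1 else 0)) a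
      simp only [hBelO, hy', Sum.elim_inr]
      constructor
      · intro h
        linarith
      · intro h
        have h2 := lt_of_le_of_ne (not_lt.mp h) h1.symm
        linarith
  have hBB : ∀ r bb a, (BelB r bb a → C.s (Sum.inr a.2) * x' r bb + (C.t (Sum.inr a.2) -
        ((a.1.val:ℕ):ℝ) * ((C.s (Sum.inr a.2) - σ) * τ)) < y' r bb) ∧
      (¬ BelB r bb a → y' r bb < C.s (Sum.inr a.2) * x' r bb + (C.t (Sum.inr a.2) -
        ((a.1.val:ℕ):ℝ) * ((C.s (Sum.inr a.2) - σ) * τ))) := by
    rintro (⟨i, q⟩ | ⟨i, p⟩) bb ⟨a1, β⟩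
    · have h1 := C.hne q bb (Sum.inr β)
      have h2 := abs_lt.mp (hτ3 β q bb)
      have h3 := sub_pos.mpr (hsB β)
      simp only [hBelB, hx', hy', Sum.elim_inl]
      have key : C.s (Sum.inr β) * (C.x q bb + ((i.val:ℕ):ℝ) * τ) + (C.t (Sum.inr β) -
          ((a1.val:ℕ):ℝ) * ((C.s (Sum.inr β) - σ) * τ)) -
          (C.y q bb + σ * (((i.val:ℕ):ℝ) * τ)) =
          (C.s (Sum.inr β) * C.x q bb + C.t (Sum.inr β) - C.y q bb) +
          (C.s (Sum.inr β) - σ) * (((i.val:ℕ):ℝ) * τ - ((a1.val:ℕ):ℝ) * τ) := by ring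
      constructor
      · rintro (h | ⟨h, h'⟩)
        · have h4 := hmul1 _ _ h
          have h5 : (C.s (Sum.inr β) - σ) * (((i.val:ℕ):ℝ) * τ - ((a1.val:ℕ):ℝ) * τ) ≤
              (C.s (Sum.inr β) - σ) * (-τ) :=
            mul_le_mul_of_nonneg_left (by linarith) h3.le
          linarith [h2.2]
        · rw [h, sub_self, mul_zero] at key
          rw [h]
          linarith
      · intro h
        push Not at h
        obtain ⟨h, h'⟩ := h
        rcases Nat.lt_or_eq_of_le h with h6 | h6
        · have h4 := hmul1 _ _ h6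
          have h5 : (C.s (Sum.inr β) - σ) * τ ≤
              (C.s (Sum.inr β) - σ) * (((i.val:ℕ):ℝ) * τ - ((a1.val:ℕ):ℝ) * τ) :=
            mul_le_mul_of_nonneg_left (by linarith) h3.le
          linarith [h2.1]
        · have h7 := lt_of_le_of_ne (h' h6) h1.symm
          rw [h6, sub_self, mul_zero] at key
          rw [h6]
          linarith
    · have h4 := hη1 (idx p) ((hidx p).trans_le (hwt p))
      have h5 := hpos0 (idx p)
      have h3 := sub_pos.mpr (hsB β)
      have h2 := abs_lt.mp (hτ4 β ⟨wt p - idx p - (if bb then 1 else 0), by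
        have := hwt p; omega⟩)
      simp only at h2
      simp only [hBelB, hy', Sum.elim_inr]
      obtain ⟨u, hu0, hu1, hu⟩ : ∃ u, 0 < u ∧ u < 1 ∧
          x' (Sum.inr (i, p)) bb = ((i.val:ℕ):ℝ) * τ - τ / 2 + u := by
        refine ⟨(((idx p:ℕ):ℝ) + 1) * η + (if bb then η / 4 else -(η / 4)), ?_, ?_, ?_⟩
        · cases bb <;> simp only [Bool.false_eq_true, if_false, if_true] <;> linarith
        · cases bb <;> simp only [Bool.false_eq_true, if_false, if_true] <;> linarith
        · simp only [hx', Sum.elim_inr]; ring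
      rw [hu]
      have key : C.s (Sum.inr β) * (((i.val:ℕ):ℝ) * τ - τ / 2 + u) + (C.t (Sum.inr β) -
          ((a1.val:ℕ):ℝ) * ((C.s (Sum.inr β) - σ) * τ)) -
          (σ * (((i.val:ℕ):ℝ) * τ - τ / 2 + u) + θ (wt p - idx p - (if bb then 1 else 0))) =
          (C.t (Sum.inr β) - θ (wt p - idx p - (if bb then 1 else 0))) +
          (C.s (Sum.inr β) - σ) * (((i.val:ℕ):ℝ) * τ - ((a1.val:ℕ):ℝ) * τ - τ / 2 + u) := by
        ring
      constructor
      · intro h
        have h6 := hmul _ _ h
        have h7 : (C.s (Sum.inr β) - σ) *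
            (((i.val:ℕ):ℝ) * τ - ((a1.val:ℕ):ℝ) * τ - τ / 2 + u) ≤
            (C.s (Sum.inr β) - σ) * (-(τ / 2 - 1)) :=
          mul_le_mul_of_nonneg_left (by linarith) h3.le
        linarith [h2.2]
      · intro h
        have h6 := hmul1 _ _ (not_le.mp h)
        have h7 : (C.s (Sum.inr β) - σ) * (τ / 2 - 1) ≤ (C.s (Sum.inr β) - σ) *
            (((i.val:ℕ):ℝ) * τ - ((a1.val:ℕ):ℝ) * τ - τ / 2 + u) :=
          mul_le_mul_of_nonneg_left (by linarith) h3.le
        linarith [h2.1]
  have sA : ∀ r bb a, (BelA r bb a → s' (Sum.inl a) * x' r bb + t' (Sum.inl a) < y' r bb) ∧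
      (¬ BelA r bb a → y' r bb < s' (Sum.inl a) * x' r bb + t' (Sum.inl a)) := fun r bb a =>
    ⟨fun h => (hS2 r bb a).1 ((hcx r bb a).1 h), fun h => (hS2 r bb a).2 ((hcx r bb a).2 h)⟩
  have sO : ∀ r bb a, (BelO r bb a →
      s' (Sum.inr (Sum.inl a)) * x' r bb + t' (Sum.inr (Sum.inl a)) < y' r bb) ∧
      (¬ BelO r bb a →
        y' r bb < s' (Sum.inr (Sum.inl a)) * x' r bb + t' (Sum.inr (Sum.inl a))) := hO
  have sB : ∀ r bb a, (BelB r bb a →
      s' (Sum.inr (Sum.inr a)) * x' r bb + t' (Sum.inr (Sum.inr a)) < y' r bb) ∧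
      (¬ BelB r bb a →
        y' r bb < s' (Sum.inr (Sum.inr a)) * x' r bb + t' (Sum.inr (Sum.inr a))) := hBB
  -- the number of lines below the samples
  have hcount : ∀ r bb, ∑ i, (if s' i * x' r bb + t' i < y' r bb then 1 else 0) =
      Sum.elim (fun p : Fin R × Q => R * b + κ p.2)
        (fun p : Fin (R + 1) × P => R * b + wt p.2) r := by
    intro r bb
    rw [Fintype.sum_sum_type, Fintype.sum_sum_type]
    have e1 : ∑ a, (if s' (Sum.inl a) * x' r bb + t' (Sum.inl a) < y' r bb then 1 else 0) =
        ∑ a, (if BelA r bb a then 1 else 0) :=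
      Finset.sum_congr rfl (fun a _ => if_congr (iff_of_signs (sA r bb a)) rfl rfl)
    have e2 : ∑ a, (if s' (Sum.inr (Sum.inl a)) * x' r bb + t' (Sum.inr (Sum.inl a)) < y' r bb
        then 1 else 0) = ∑ a, (if BelO r bb a then 1 else 0) :=
      Finset.sum_congr rfl (fun a _ => if_congr (iff_of_signs (sO r bb a)) rfl rfl)
    have e3 : ∑ a, (if s' (Sum.inr (Sum.inr a)) * x' r bb + t' (Sum.inr (Sum.inr a)) < y' r bb
        then 1 else 0) = ∑ a, (if BelB r bb a then 1 else 0) :=
      Finset.sum_congr rfl (fun a _ => if_congr (iff_of_signs (sB r bb a)) rfl rfl)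
    rw [e1, e2, e3, Fintype.sum_prod_type, Fintype.sum_prod_type]
    rcases r with ⟨i, q⟩ | ⟨i, p⟩
    · have f1 : ∑ a1 : Fin (R + 1), ∑ a2 : Fin b,
          (if BelA (Sum.inl (i, q)) bb (a1, a2) then 1 else 0) = (i.val + 1) * b := by
        rw [← sum_lt (R + 1) (i.val + 1) b (by have := i.isLt; omega)]
        apply Finset.sum_congr rfl
        intro a1 _
        simp only [hBelA, Sum.elim_inl, Finset.sum_const, Finset.card_univ, Fintype.card_fin,
          smul_eq_mul]
        split_ifs <;> omega
      have f2 : ∑ a1 : Fin R, ∑ β : B,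
          (if BelB (Sum.inl (i, q)) bb (a1, β) then 1 else 0) = (R - 1 - i.val) * b +
            ∑ β : B, (if C.s (Sum.inr β) * C.x q bb + C.t (Sum.inr β) < C.y q bb
              then 1 else 0) := by
        rw [← sum_gt3 R i.val b _ i.isLt]
        apply Finset.sum_congr rfl
        intro a1 _
        simp only [hBelB, Sum.elim_inl]
        by_cases h1 : i.val < a1.val
        · simp [h1, hB]
        · by_cases h2 : a1.val = i.val
          · simp only [h1, h2, false_or, true_and, if_false, if_true, lt_irrefl]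
          · simp [h1, h2]
      have f3 : ∑ a : A, (if BelO (Sum.inl (i, q)) bb a then 1 else 0) =
          ∑ a : A, (if C.s (Sum.inl a) * C.x q bb + C.t (Sum.inl a) < C.y q bb
            then 1 else 0) := rfl
      have f4 := C.hcard q bb
      rw [Fintype.sum_sum_type] at f4
      rw [f1, f2, f3]
      simp only [Sum.elim_inl]
      have f5 : (i.val + 1) * b + (R - 1 - i.val) * b = R * b := by
        rw [← add_mul]
        congr 1
        have := i.isLt
        omega
      have f6 : ∑ a : A, (if C.s (Sum.inl a) * C.x q bb + C.t (Sum.inl a) < C.y q bb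
            then 1 else 0) + ∑ β : B, (if C.s (Sum.inr β) * C.x q bb + C.t (Sum.inr β) < C.y q bb
            then 1 else 0) = κ q := by
        convert f4
      omega
    · have hm : idx p + (if bb then 1 else 0) ≤ b := by
        have := hidx p
        have := hwt p
        cases bb <;> simp only [Bool.false_eq_true, if_false, if_true] <;> omega
      have f1 : ∑ a1 : Fin (R + 1), ∑ a2 : Fin b,
          (if BelA (Sum.inr (i, p)) bb (a1, a2) then 1 else 0) =
            i.val * b + (idx p + (if bb then 1 else 0)) := by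
        rw [← sum_lt3 (R + 1) i.val b _ i.isLt]
        apply Finset.sum_congr rfl
        intro a1 _
        simp only [hBelA, Sum.elim_inr]
        by_cases h1 : a1.val < i.val
        · simp [h1]
        · by_cases h2 : a1.val = i.val
          · simp only [h2, lt_irrefl, false_or, true_and, if_false, if_true]
            rw [sum_lt b _ 1 hm, mul_one]
          · simp [h1, h2]
      have f2 : ∑ a1 : Fin R, ∑ β : B,
          (if BelB (Sum.inr (i, p)) bb (a1, β) then 1 else 0) = (R - i.val) * b := by
        rw [← sum_ge R i.val b]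
        apply Finset.sum_congr rfl
        intro a1 _
        simp only [hBelB, Sum.elim_inr, Finset.sum_const, Finset.card_univ, hB, smul_eq_mul]
        split_ifs <;> omega
      have f3 : ∑ a : A, (if BelO (Sum.inr (i, p)) bb a then 1 else 0) =
          wt p - idx p - (if bb then 1 else 0) := by
        have := hθ1 (wt p - idx p - (if bb then 1 else 0)) (by have := hwt p; omega)
        exact this
      rw [f1, f2, f3]
      simp only [Sum.elim_inr]
      have f5 : i.val * b + (R - i.val) * b = R * b := by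
        rw [← add_mul]
        congr 1
        have := i.isLt
        omega
      have f6 := hidx p
      cases bb <;> simp only [Bool.false_eq_true, if_false, if_true] <;> omega
  choose α hα1 hα2 using hθ3
  set up : Fin R → A ⊕ B → (Fin (R + 1) × Fin b) ⊕ (A ⊕ (Fin R × B)) := fun i =>
    Sum.elim (fun a => Sum.inr (Sum.inl a)) (fun β => Sum.inr (Sum.inr (i, β))) with hup
  have hupe : ∀ (i : Fin R) (q : Q) (bb : Bool) (l : A ⊕ B),
      s' (up i l) * x' (Sum.inl (i, q)) bb + t' (up i l) - y' (Sum.inl (i, q)) bb =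
        C.s l * C.x q bb + C.t l - C.y q bb := by
    rintro i q bb (a | β)
    · simp only [hs', ht', hx', hy', hup, Sum.elim_inl, Sum.elim_inr]
      rw [hsA a]; ring
    · simp only [hs', ht', hx', hy', hup, Sum.elim_inl, Sum.elim_inr]
      ring
  have hj : ∀ p : P, wt p - idx p - 1 < b := by
    intro p
    have := hidx p
    have := hwt p
    omega
  -- positions of the samples
  have hxr : ∀ (i : Fin R) (q : Q) bb, ((i.val:ℕ):ℝ) * τ - τ / 2 + 1 < x' (Sum.inl (i, q)) bb ∧
      x' (Sum.inl (i, q)) bb < ((i.val:ℕ):ℝ) * τ + τ / 2 - 1 := by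
    intro i q bb
    have h1 := abs_lt.mp (show |C.x q bb| < τ / 2 - 1 by linarith [hτ2 q bb])
    simp only [hx', Sum.elim_inl]
    constructor <;> linarith [h1.1, h1.2]
  have hxp : ∀ (i : Fin (R + 1)) (p : P) bb, ((i.val:ℕ):ℝ) * τ - τ / 2 < x' (Sum.inr (i, p)) bb ∧
      x' (Sum.inr (i, p)) bb < ((i.val:ℕ):ℝ) * τ - τ / 2 + 1 := by
    intro i p bb
    have h4 := hη1 (idx p) ((hidx p).trans_le (hwt p))
    have h5 := hpos0 (idx p)
    simp only [hx', Sum.elim_inr]
    cases bb <;> simp only [Bool.false_eq_true, if_false, if_true] <;> constructor <;> linarith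
  refine ⟨Fin (R + 1) × Fin b, A ⊕ (Fin R × B), (Fin R × Q) ⊕ (Fin (R + 1) × P), inferInstance,
    inferInstance, inferInstance, Sum.elim (fun p : Fin R × Q => R * b + κ p.2)
        (fun p : Fin (R + 1) × P => R * b + wt p.2),
    { s := s', t := t', x := x', y := y'
      l := Sum.elim (fun p => up p.1 (C.l p.2)) (fun p => Sum.inr (Sum.inl (α _ (hj p.2))))
      hlt := ?_, hdisj := ?_, hne := ?_, hcard := ?_, hl0 := ?_, hl1 := ?_ },
    -S, if R = 0 then {σ} else insert σ T, ?_, ?_, ?_, ?_, ?_, ?_, ?_, ?_, ?_⟩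
  · rintro (⟨i, q⟩ | ⟨i, p⟩)
    · simp only [hx', Sum.elim_inl]
      linarith [C.hlt q]
    · simp only [hx', Sum.elim_inr, Bool.false_eq_true, if_false, if_true]
      linarith
  · rintro (⟨i, q⟩ | ⟨i, p⟩) (⟨i', q'⟩ | ⟨i', p'⟩) hne hk
    · simp only [Sum.elim_inl] at hk
      have hk' : κ q = κ q' := by omega
      rcases lt_trichotomy i.val i'.val with h | h | h
      · left
        have := hmul1 _ _ h
        linarith [(hxr i q true).2, (hxr i' q' false).1]
      · have hi : i = i' := Fin.ext h
        subst hi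
        have hq : q ≠ q' := by rintro rfl; exact hne rfl
        rcases C.hdisj q q' hq hk' with h1 | h1
        · left
          simp only [hx', Sum.elim_inl]
          linarith
        · right
          simp only [hx', Sum.elim_inl]
          linarith
      · right
        have := hmul1 _ _ h
        linarith [(hxr i' q' true).2, (hxr i q false).1]
    · rcases lt_or_ge i.val i'.val with h | h
      · left
        have := hmul1 _ _ h
        linarith [(hxr i q true).2, (hxp i' p' false).1]
      · right
        have := hmul _ _ h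
        linarith [(hxr i q false).1, (hxp i' p' true).2]
    · rcases lt_or_ge i'.val i.val with h | h
      · right
        have := hmul1 _ _ h
        linarith [(hxr i' q' true).2, (hxp i p false).1]
      · left
        have := hmul _ _ h
        linarith [(hxr i' q' false).1, (hxp i p true).2]
    · rcases lt_trichotomy i.val i'.val with h | h | h
      · left
        have := hmul1 _ _ h
        linarith [(hxp i p true).2, (hxp i' p' false).1]
      · have hi : i = i' := Fin.ext h
        subst hi
        simp only [Sum.elim_inr] at hk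
        have hp : p ≠ p' := by rintro rfl; exact hne rfl
        have hk' : wt p = wt p' := by omega
        have hid : idx p ≠ idx p' := fun h => hp (hpinj p p' hk' h)
        rcases lt_or_gt_of_ne hid with h1 | h1
        · left
          have := hmuη1 _ _ h1
          simp only [hx', Sum.elim_inr, Bool.false_eq_true, if_false, if_true]
          linarith
        · right
          have := hmuη1 _ _ h1
          simp only [hx', Sum.elim_inr, Bool.false_eq_true, if_false, if_true]
          linarith
      · right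
        have := hmul1 _ _ h
        linarith [(hxp i' p' true).2, (hxp i p false).1]
  · rintro r bb (a | a | a)
    · exact ne_of_signs (sA r bb a)
    · exact ne_of_signs (sO r bb a)
    · exact ne_of_signs (sB r bb a)
  · intro r bb
    convert hcount r bb
  · rintro (⟨i, q⟩ | ⟨i, p⟩)
    · simp only [Sum.elim_inl]
      linarith [hupe i q false (C.l q), C.hl0 q]
    · simp only [Sum.elim_inr]
      have h1 := hα2 _ (hj p)
      have e : wt p - idx p - 1 + 1 = wt p - idx p - (if false then 1 else 0) := by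
        have := hidx p
        simp only [Bool.false_eq_true, if_false]
        omega
      rw [e] at h1
      exact (sO (Sum.inr (i, p)) false _).1 h1
  · rintro (⟨i, q⟩ | ⟨i, p⟩)
    · simp only [Sum.elim_inl]
      linarith [hupe i q true (C.l q), C.hl1 q]
    · simp only [Sum.elim_inr]
      have h1 := hα1 _ (hj p)
      have h3 : ¬ (C.t (Sum.inl (α _ (hj p))) < θ (wt p - idx p - (if true then 1 else 0))) :=
        not_lt.mpr h1.le
      exact (sO (Sum.inr (i, p)) true (α _ (hj p))).2 h3
  · rw [Fintype.card_prod, Fintype.card_fin, Fintype.card_fin]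
  · rw [Fintype.card_sum, Fintype.card_prod, Fintype.card_fin, hA, hB]; ring
  · have hPc : Fintype.card (Fin b ⊕ Fin (b - 1)) = b + (b - 1) := by simp
    rw [Fintype.card_sum, Fintype.card_prod, Fintype.card_prod, Fintype.card_fin,
      Fintype.card_fin, hQ]
    exact congrArg (fun z => R * E + (R + 1) * z) hPc
  · intro a; rfl
  · rintro (a | ⟨i, β⟩)
    · show -S < σ
      linarith
    · show -S < C.s (Sum.inr β)
      linarith [hsB β]
  · intro a a' h
    have h1 : S * c a = S * c a' := h
    have h2 : c a = c a' := mul_left_cancel₀ hS0.ne' h1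
    have g2 := hη1 a.2.val a.2.isLt
    have g3 := hpos0 a.2.val
    have g2' := hη1 a'.2.val a'.2.isLt
    have g3' := hpos0 a'.2.val
    simp only [hc] at h2
    have e1 : a.1.val = a'.1.val := by
      rcases lt_trichotomy a.1.val a'.1.val with h3 | h3 | h3
      · have := hmul1 _ _ h3
        exfalso; linarith
      · exact h3
      · have := hmul1 _ _ h3
        exfalso; linarith
    have e2 : a.2.val = a'.2.val := by
      rw [e1] at h2
      rcases lt_trichotomy a.2.val a'.2.val with h3 | h3 | h3
      · have := hmuη1 _ _ h3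
        exfalso; linarith
      · exact h3
      · have := hmuη1 _ _ h3
        exfalso; linarith
    exact Prod.ext (Fin.ext e1) (Fin.ext e2)
  · rintro (a | ⟨i, β⟩)
    · show σ ∈ _
      split_ifs <;> simp
    · show C.s (Sum.inr β) ∈ _
      have hR : R ≠ 0 := by
        have := i.isLt
        omega
      rw [if_neg hR]
      exact Finset.mem_insert_of_mem (hT β)
  · split_ifs with hR
    · simp
    · exact (Finset.card_insert_le _ _).trans (by omega)
  · rintro (⟨i, q⟩ | ⟨i, (q | q)⟩)
    · simp only [Sum.elim_inl]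
      have e : (R + 1) * b = R * b + b := by ring
      rcases hκ q with h1 | h1
      · left; omega
      · right; omega
    · left
      simp only [Sum.elim_inr, hwtdef, Sum.elim_inl]
      ring
    · right
      simp only [Sum.elim_inr, hwtdef]
      have := q.isLt
      have e : (R + 1) * b = R * b + b := by ring
      omega

end Pool.Agent.L0h27.FS2
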